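import Mathlib
set_option autoImplicit false
open MeasureTheory Set
open scoped ENNReal

namespace Pool.Agent.Helper537.Cal

section partition

/-- enumeration of pairs -/
noncomputable def en : ℕ ≃ ℤ × ℤ := (Denumerable.eqv (ℤ × ℤ)).symm

def cov (q : ℕ) (l : ℕ) (a p : ℤ × ℤ) : Prop := p.2 = a.2 ∧ ((q : ℤ) ^ l ∣ p.1 - a.1)

/-- greedy choice of cosets -/
noncomputable def gr (q : ℕ) (l : ℕ) : ℤ × ℤ :=
  en (sInf {m : ℕ | ∀ l' : Fin l, ¬ cov q l'.1 (gr q l'.1) (en m)})
termination_by l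
decreasing_by exact l'.2

noncomputable def idx (q : ℕ) (l : ℕ) : ℕ :=
  sInf {m : ℕ | ∀ l' : Fin l, ¬ cov q l'.1 (gr q l'.1) (en m)}

lemma gr_eq (q l : ℕ) : gr q l = en (idx q l) := by
  rw [gr]; rfl

lemma exists_unc (q l : ℕ) : {m : ℕ | ∀ l' : Fin l, ¬ cov q l'.1 (gr q l'.1) (en m)}.Nonempty := by
  obtain ⟨N, hN⟩ := Infinite.exists_notMem_finset
    (Finset.univ.image (fun l' : Fin l => (gr q l'.1).2))
  refine ⟨en.symm (0, N), ?_⟩
  intro l' h
  rw [Equiv.apply_symm_apply] at h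
  apply hN
  rw [Finset.mem_image]
  exact ⟨l', Finset.mem_univ _, h.1.symm⟩

lemma gr_unc (q l : ℕ) {l' : ℕ} (h : l' < l) : ¬ cov q l' (gr q l') (gr q l) := by
  have := Nat.sInf_mem (exists_unc q l)
  have h2 := this ⟨l', h⟩
  rw [gr_eq q l]
  exact h2

lemma cov_self (q l : ℕ) (a : ℤ × ℤ) : cov q l a a := ⟨rfl, by simp⟩

lemma idx_inj (q : ℕ) : Function.Injective (idx q) := by
  intro l l' h
  by_contra hne
  rcases Nat.lt_or_gt_of_ne hne with h1 | h1
  · apply gr_unc q l' h1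
    rw [gr_eq q l, gr_eq q l', h]
    exact cov_self _ _ _
  · apply gr_unc q l h1
    rw [gr_eq q l, gr_eq q l', h]
    exact cov_self _ _ _

lemma all_cov (q : ℕ) (p : ℤ × ℤ) : ∃ l, cov q l (gr q l) p := by
  by_contra hcon
  push Not at hcon
  have h1 : ∀ l, idx q l ≤ en.symm p := by
    intro l
    apply Nat.sInf_le
    intro l' h
    rw [Equiv.apply_symm_apply] at h
    exact hcon _ h
  have h2 := Set.infinite_range_of_injective (idx_inj q)
  apply h2
  apply (Set.finite_Iic (en.symm p)).subset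
  rintro _ ⟨l, rfl⟩
  exact h1 l

/-- The cosets `(c_l + q^l ℤ) × {n_l}` form a partition of `ℤ × ℤ`. -/
theorem sig_bij (q : ℕ) (hq : 2 ≤ q) :
    Function.Bijective (fun p : ℕ × ℤ => (((gr q p.1).1 + (q : ℤ) ^ p.1 * p.2, (gr q p.1).2) : ℤ × ℤ)) := by
  have hq0 : (q : ℤ) ≠ 0 := by exact_mod_cast (by omega : q ≠ 0)
  constructor
  · rintro ⟨l, k⟩ ⟨l', k'⟩ h
    simp only [Prod.mk.injEq] at h
    obtain ⟨h1, h2⟩ := h
    have key : ∀ {l l' : ℕ} {k k' : ℤ}, (gr q l).1 + (q : ℤ) ^ l * k = (gr q l').1 + (q : ℤ) ^ l' * k' →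
        (gr q l).2 = (gr q l').2 → ¬ l' < l := by
      intro l l' k k' h1 h2 hlt
      apply gr_unc q l hlt
      refine ⟨h2, ?_⟩
      obtain ⟨r, rfl⟩ := Nat.exists_eq_add_of_lt hlt
      refine ⟨k' - (q : ℤ) ^ (r + 1) * k, ?_⟩
      have : (q : ℤ) ^ (l' + r + 1) = (q : ℤ) ^ l' * (q : ℤ) ^ (r + 1) := by
        rw [← pow_add]; congr 1
      rw [this] at h1
      linear_combination h1
    have h3 := key h1 h2
    have h4 := key h1.symm h2.symm
    obtain rfl : l = l' := by omega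
    have h5 : (q : ℤ) ^ l * k = (q : ℤ) ^ l * k' := by linear_combination h1
    have h6 := mul_left_cancel₀ (pow_ne_zero l hq0) h5
    rw [h6]
  · rintro p
    obtain ⟨l, h1, k, h2⟩ := all_cov q p
    refine ⟨(l, k), ?_⟩
    ext
    · simp only; linear_combination -h2
    · simp only; exact h1.symm

/-- The bijection as an equivalence. -/
noncomputable def sig (q : ℕ) (hq : 2 ≤ q) : ℕ × ℤ ≃ ℤ × ℤ := Equiv.ofBijective _ (sig_bij q hq)

lemma sig_apply (q : ℕ) (hq : 2 ≤ q) (l : ℕ) (k : ℤ) :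
    sig q hq (l, k) = ((gr q l).1 + (q : ℤ) ^ l * k, (gr q l).2) := rfl

end partition

section one

/-- modulated indicator of the interval `{t ≤ s y < t+1}` -/
noncomputable def ker (s t : ℝ) (k : ℤ) (y : ℝ) : ℂ :=
  if t ≤ s * y ∧ s * y < t + 1 then
    ((Real.sqrt s : ℝ) : ℂ) * Complex.exp (-(2 * Real.pi * Complex.I * k * (s * y : ℝ))) else 0

lemma win_eq {s : ℝ} (hs : 0 < s) (t : ℝ) :
    {y : ℝ | t ≤ s * y ∧ s * y < t + 1} = Ico (t / s) ((t + 1) / s) := by
  ext y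
  simp only [mem_ofPred_eq, mem_Ico]
  rw [div_le_iff₀ hs, lt_div_iff₀ hs, mul_comm s y]

lemma measurable_ker (s t : ℝ) (k : ℤ) : Measurable (ker s t k) := by
  unfold ker
  apply Measurable.ite
  · have h1 : MeasurableSet {y : ℝ | t ≤ s * y} := measurableSet_le (by fun_prop) (by fun_prop)
    have h2 : MeasurableSet {y : ℝ | s * y < t + 1} := measurableSet_lt (by fun_prop) (by fun_prop)
    exact h1.inter h2
  · fun_prop
  · exact measurable_const

lemma ker_int {s : ℝ} (hs : 0 < s) (t : ℝ) (k : ℤ) (P : ℝ → ℂ)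
    (hab : t / s < (t + 1) / s) :
    ∫ y, (starRingEnd ℂ) (ker s t k y) * P y =
      ((Real.sqrt s * (1 / s) : ℝ) : ℂ) * fourierCoeffOn hab P (-k) := by
  have h1 : (fun y => (starRingEnd ℂ) (ker s t k y) * P y) =
      (Ico (t / s) ((t + 1) / s)).indicator (fun y => ((Real.sqrt s : ℝ) : ℂ) *
        (Complex.exp (2 * Real.pi * Complex.I * k * (s * y : ℝ)) * P y)) := by
    funext y
    have hw : y ∈ Ico (t / s) ((t + 1) / s) ↔ (t ≤ s * y ∧ s * y < t + 1) := by
      rw [← win_eq hs t]; rfl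
    rw [indicator_apply]
    simp only [hw, ker]
    split_ifs with h
    · rw [map_mul, Complex.conj_ofReal, ← Complex.exp_conj, mul_assoc]
      congr 3
      simp only [map_neg, map_mul, Complex.conj_I, Complex.conj_ofReal, map_ofNat, map_intCast]
      ring
    · simp
  rw [h1, integral_indicator measurableSet_Ico, integral_const_mul]
  rw [fourierCoeffOn_eq_integral, intervalIntegral.integral_of_le hab.le]
  have hT : (t + 1) / s - t / s = 1 / s := by field_simp; ring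
  rw [← integral_Ico_eq_integral_Ioc, Complex.ofReal_mul,
    mul_assoc ((Real.sqrt s : ℝ) : ℂ) ((1 / s : ℝ) : ℂ)]
  congr 1
  rw [Complex.real_smul, ← mul_assoc]
  have h2 : ((1 / s : ℝ) : ℂ) * ((1 / ((t + 1) / s - t / s) : ℝ) : ℂ) = 1 := by
    rw [hT, ← Complex.ofReal_mul]
    have : (1 / s) * (1 / (1 / s)) = 1 := by field_simp
    rw [this, Complex.ofReal_one]
  rw [h2, one_mul]
  apply setIntegral_congr_fun measurableSet_Ico
  intro y _
  simp only [neg_neg, smul_eq_mul]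
  congr 1
  rw [fourier_coe_apply]
  congr 1
  rw [hT]
  push_cast
  field_simp

/-- Parseval identity on a window, in extended nonnegative reals. -/
lemma parseval_win {s : ℝ} (hs : 0 < s) (t : ℝ) {P : ℝ → ℂ}
    (hP : MemLp P 2 (volume.restrict (Ico (t / s) ((t + 1) / s)))) :
    ∑' k : ℤ, ‖∫ y, (starRingEnd ℂ) (ker s t k y) * P y‖ₑ ^ 2 =
      ∫⁻ y in Ico (t / s) ((t + 1) / s), ‖P y‖ₑ ^ 2 := by
  have hab : t / s < (t + 1) / s := by
    apply div_lt_div_of_pos_right _ hs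
    linarith
  have hT : (t + 1) / s - t / s = 1 / s := by field_simp; ring
  have hP' : MemLp P 2 (volume.restrict (Ioc (t / s) ((t + 1) / s))) := by
    rw [← restrict_Ico_eq_restrict_Ioc]; exact hP
  have h := hasSum_sq_fourierCoeffOn hab hP'
  have e1 : ∀ k : ℤ, ‖∫ y, (starRingEnd ℂ) (ker s t k y) * P y‖ₑ ^ 2 =
      ENNReal.ofReal (1 / s * ‖fourierCoeffOn hab P (-k)‖ ^ 2) := by
    intro k
    rw [ker_int hs t k P hab, ← ofReal_norm, ← ENNReal.ofReal_pow (norm_nonneg _), norm_mul, mul_pow]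
    congr 2
    rw [Complex.norm_real, Real.norm_eq_abs, sq_abs, mul_pow, Real.sq_sqrt hs.le]
    field_simp
  simp_rw [e1]
  have h2 : HasSum (fun k : ℤ => 1 / s * ‖fourierCoeffOn hab P (-k)‖ ^ 2)
      (∫ x in Ico (t / s) ((t + 1) / s), ‖P x‖ ^ 2) := by
    have h3 := (h.mul_left (1 / s))
    have h4 := (Equiv.neg ℤ).hasSum_iff.2 h3
    have h5 : 1 / s * ((t + 1) / s - t / s)⁻¹ • ∫ (x : ℝ) in t / s..(t + 1) / s, ‖P x‖ ^ 2 =
        ∫ x in Ico (t / s) ((t + 1) / s), ‖P x‖ ^ 2 := by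
      rw [smul_eq_mul, hT, intervalIntegral.integral_of_le hab.le, integral_Ico_eq_integral_Ioc]
      field_simp
    rw [h5] at h4
    exact h4
  rw [← ENNReal.ofReal_tsum_of_nonneg (fun k => by positivity) h2.summable, h2.tsum_eq]
  rw [ofReal_integral_eq_lintegral_ofReal]
  · apply lintegral_congr
    intro x
    rw [ENNReal.ofReal_pow (norm_nonneg _), ofReal_norm]
  · exact hP.integrable_norm_pow (by norm_num)
  · exact Filter.Eventually.of_forall fun x => by positivity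

end one

end Pool.Agent.Helper537.Cal
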