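import Mathlib

/-!
# Wavelets with arbitrary dilations and lattices: definitions

All definitions are stated for a Euclidean space `V` (a finite dimensional real inner product
space), and are used for `V = ℝ^2 = EuclideanSpace ℝ (Fin 2)`.
-/

set_option autoImplicit false
open MeasureTheory
open scoped FourierTransform ENNReal

namespace Pool.Agent.Helper537.Calderon

section general

variable {V : Type} [NormedAddCommGroup V] [InnerProductSpace ℝ V] [FiniteDimensional ℝ V]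
  [MeasurableSpace V] [BorelSpace V]

/-- The absolute value of the determinant of a linear automorphism `A` of `V`. -/
noncomputable def absDet (A : V ≃L[ℝ] V) : ℝ := |LinearMap.det (A : V →ₗ[ℝ] V)|

/-- The function `ψ_{j,k}(x) = |det A|^{j/2} ψ(A^j x - k)`. Here `A ^ j` is the `j`-th power in the
group of linear automorphisms of `V`. -/
noncomputable def wav (A : V ≃L[ℝ] V) (ψ : V → ℂ) (j : ℤ) (k : V) (x : V) : ℂ :=
  ((absDet A ^ ((j : ℝ) / 2) : ℝ) : ℂ) * ψ ((A ^ j) x - k)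

/-- `ψ ∈ L²(V)` is an orthonormal wavelet associated with `(A, Γ)`: the system
`{ψ_{j,k} : j ∈ ℤ, k ∈ Γ}` is an orthonormal basis (Hilbert basis) of `L²(V)`. -/
def IsOrthonormalWavelet (A : V ≃L[ℝ] V) (Γ : Submodule ℤ V)
    (ψ : Lp ℂ 2 (volume : Measure V)) : Prop :=
  ∃ b : HilbertBasis (ℤ × Γ) ℂ (Lp ℂ 2 (volume : Measure V)),
    ∀ (j : ℤ) (k : Γ), (b (j, k) : V → ℂ) =ᵐ[volume] wav A ψ j k

/-- `ψ ∈ L²(V)` is a Parseval wavelet associated with `(A, Γ)`: for every `f ∈ L²(V)`,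
`∑_{j ∈ ℤ, k ∈ Γ} |⟨f, ψ_{j,k}⟩|² = ‖f‖²`. -/
def IsParsevalWavelet (A : V ≃L[ℝ] V) (Γ : Submodule ℤ V)
    (ψ : Lp ℂ 2 (volume : Measure V)) : Prop :=
  ∀ f : Lp ℂ 2 (volume : Measure V),
    HasSum (fun p : ℤ × Γ => ‖∫ x, f x * (starRingEnd ℂ) (wav A ψ p.1 p.2 x)‖ ^ 2) (‖f‖ ^ 2)

/-- Calderon's formula for `ψ` and `(A, Γ)`: for almost every `ξ`,
`∑_{j ∈ ℤ} |(𝓕 ψ)((A^T)^j ξ)|² = covol(Γ)`. Here `𝓕` is the Fourier transform of `L²(V)` with the
normalization `e^{-2 π i ⟨x, ξ⟩}`, and `(A^T)^j = (A^j)^T` is the adjoint of `A^j`. The sum of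
nonnegative terms is taken in `[0, ∞]`. -/
def CalderonFormula (A : V ≃L[ℝ] V) (Γ : Submodule ℤ V)
    (ψ : Lp ℂ 2 (volume : Measure V)) : Prop :=
  ∀ᵐ ξ : V, ∑' j : ℤ, ‖(𝓕 ψ : Lp ℂ 2 (volume : Measure V))
      (ContinuousLinearMap.adjoint ((A ^ j : V ≃L[ℝ] V) : V →L[ℝ] V) ξ)‖ₑ ^ 2 =
    ENNReal.ofReal (ZLattice.covolume Γ)

/-- There is a function in `L²(V)` which is an orthonormal wavelet and a Parseval wavelet for
`(A, Γ)`, and for which Calderon's formula fails. -/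
def CalderonFails (A : V ≃L[ℝ] V) (Γ : Submodule ℤ V) : Prop :=
  ∃ ψ : Lp ℂ 2 (volume : Measure V),
    IsOrthonormalWavelet A Γ ψ ∧ IsParsevalWavelet A Γ ψ ∧ ¬ CalderonFormula A Γ ψ

end general

/-- The Euclidean space `ℝ^n`. -/
abbrev E (n : ℕ) : Type := EuclideanSpace ℝ (Fin n)

/-- The integer lattice `ℤ^n` in `ℝ^n`. -/
def intLattice (n : ℕ) : Submodule ℤ (E n) :=
  Submodule.span ℤ (Set.range (EuclideanSpace.basisFun (Fin n) ℝ))

/-- The automorphism `A` of `ℝ^2` is the diagonal matrix `diag(a, b)`. -/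
def IsDiag (A : E 2 ≃L[ℝ] E 2) (a b : ℝ) : Prop := ∀ x : E 2, A x 0 = a * x 0 ∧ A x 1 = b * x 1

end Pool.Agent.Helper537.Calderon
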