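import Mathlib
set_option autoImplicit false
set_option linter.unusedSectionVars false
open MeasureTheory
open scoped FourierTransform ENNReal

namespace Pool.Agent.Helper537.FT

variable {E : Type*} [NormedAddCommGroup E] [InnerProductSpace ℝ E] [FiniteDimensional ℝ E]
  [MeasurableSpace E] [BorelSpace E]

/-- The absolute determinant of a linear automorphism. -/
noncomputable def adet (A : E ≃L[ℝ] E) : ℝ := |LinearMap.det (A : E →ₗ[ℝ] E)|

lemma adet_pos (A : E ≃L[ℝ] E) : 0 < adet A := by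
  unfold adet
  have : LinearMap.det (A : E →ₗ[ℝ] E) ≠ 0 := by
    have := A.toLinearEquiv.isUnit_det'
    exact this.ne_zero
  positivity

lemma map_volume_aff (A : E ≃L[ℝ] E) (b : E) :
    Measure.map (fun x => A x - b) (volume : Measure E) = ENNReal.ofReal (adet A)⁻¹ • volume := by
  have h0 : LinearMap.det (A : E →ₗ[ℝ] E) ≠ 0 := by
    intro h
    have := adet_pos A
    unfold adet at this
    rw [h] at this; simp at this
  have h1 := Measure.map_linearMap_addHaar_eq_smul_addHaar (volume : Measure E) h0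
  have h2 : (fun x => A x - b) = (fun x => x - b) ∘ (fun x => A x) := rfl
  rw [h2, ← Measure.map_map (by fun_prop) (by fun_prop)]
  have h3 : Measure.map (fun x => A x) (volume : Measure E) =
      ENNReal.ofReal (adet A)⁻¹ • volume := by
    have : (fun x => A x) = ((A : E →ₗ[ℝ] E) : E → E) := rfl
    rw [this, h1, abs_inv]; rfl
  rw [h3, Measure.map_smul, (measurePreserving_sub_right (volume : Measure E) b).map_eq]

lemma emb_aff (A : E ≃L[ℝ] E) (b : E) : MeasurableEmbedding (fun x => A x - b) :=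
  (measurableEmbedding_subRight b).comp A.toHomeomorph.measurableEmbedding

lemma qmp_aff (A : E ≃L[ℝ] E) (b : E) :
    Measure.QuasiMeasurePreserving (fun x => A x - b) (volume : Measure E) volume :=
  ⟨(emb_aff A b).measurable, by rw [map_volume_aff]; exact Measure.smul_absolutelyContinuous⟩

lemma lintegral_aff (A : E ≃L[ℝ] E) (b : E) (F : E → ℝ≥0∞) :
    ∫⁻ x, F (A x - b) = ENNReal.ofReal (adet A)⁻¹ * ∫⁻ x, F x := by
  rw [← (emb_aff A b).lintegral_map, map_volume_aff, lintegral_smul_measure]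
  rfl

lemma integral_aff {G : Type*} [NormedAddCommGroup G] [NormedSpace ℝ G]
    (A : E ≃L[ℝ] E) (b : E) (F : E → G) :
    ∫ x, F (A x - b) = (adet A)⁻¹ • ∫ x, F x := by
  rw [← (emb_aff A b).integral_map, map_volume_aff, integral_smul_measure,
    ENNReal.toReal_ofReal (inv_nonneg.2 (adet_pos A).le)]

/-- A weight of constant modulus. -/
structure Wt (A : E ≃L[ℝ] E) (w : E → ℂ) : Prop where
  meas : Measurable w
  norm : ∀ x, ‖w x‖ ^ 2 = adet A

lemma eLpNorm_two_sq (u : E → ℂ) : eLpNorm u 2 volume ^ 2 = ∫⁻ x, ‖u x‖ₑ ^ 2 := by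
  rw [eLpNorm_eq_lintegral_rpow_enorm_toReal (by norm_num) (by norm_num)]
  simp only [ENNReal.toReal_ofNat, one_div]
  rw [← ENNReal.rpow_natCast, ← ENNReal.rpow_mul]
  norm_num

lemma eLpNorm_wco (A : E ≃L[ℝ] E) (b : E) (w : E → ℂ) (hw : Wt A w) (u : E → ℂ) :
    eLpNorm (fun x => w x * u (A x - b)) 2 volume = eLpNorm u 2 volume := by
  have h : eLpNorm (fun x => w x * u (A x - b)) 2 volume ^ 2 = eLpNorm u 2 volume ^ 2 := by
    rw [eLpNorm_two_sq, eLpNorm_two_sq]
    have e : ∀ x, ‖w x * u (A x - b)‖ₑ ^ 2 =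
        (fun y => ENNReal.ofReal (adet A) * ‖u y‖ₑ ^ 2) (A x - b) := by
      intro x
      simp only
      rw [enorm_mul, mul_pow]
      congr 1
      rw [← hw.norm x, ENNReal.ofReal_pow (norm_nonneg _), ofReal_norm]
    simp_rw [e]
    have h := lintegral_aff A b (fun y => ENNReal.ofReal (adet A) * ‖u y‖ₑ ^ 2)
    rw [h, lintegral_const_mul' _ _ ENNReal.ofReal_ne_top, ← mul_assoc,
      ← ENNReal.ofReal_mul (inv_nonneg.2 (adet_pos A).le), inv_mul_cancel₀ (adet_pos A).ne']
    simp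
  exact (ENNReal.pow_right_strictMono (n := 2) (by norm_num)).injective h

lemma memLp_wco (A : E ≃L[ℝ] E) (b : E) (w : E → ℂ) (hw : Wt A w) {u : E → ℂ}
    (hu : MemLp u 2 volume) : MemLp (fun x => w x * u (A x - b)) 2 volume := by
  refine ⟨?_, ?_⟩
  · exact hw.meas.aestronglyMeasurable.mul (hu.1.comp_quasiMeasurePreserving (qmp_aff A b))
  · rw [eLpNorm_wco A b w hw]; exact hu.2

/-- Weighted composition operators on the Hilbert space of square integrable functions. -/
noncomputable def wco (A : E ≃L[ℝ] E) (b : E) (w : E → ℂ) (hw : Wt A w) :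
    Lp ℂ 2 (volume : Measure E) →ₗᵢ[ℂ] Lp ℂ 2 (volume : Measure E) where
  toFun u := (memLp_wco A b w hw (Lp.memLp u)).toLp _
  map_add' u v := by
    rw [← MemLp.toLp_add]
    apply MemLp.toLp_congr
    have h := (qmp_aff A b).ae (Lp.coeFn_add u v)
    filter_upwards [h] with x hx
    rw [hx]
    simp [mul_add]
  map_smul' c u := by
    rw [RingHom.id_apply, ← MemLp.toLp_const_smul]
    apply MemLp.toLp_congr
    have h := (qmp_aff A b).ae (Lp.coeFn_smul c u)
    filter_upwards [h] with x hx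
    rw [hx]
    simp [mul_left_comm]
  norm_map' u := by
    simp only [LinearMap.coe_mk, AddHom.coe_mk, Lp.norm_toLp]
    rw [eLpNorm_wco A b w hw, Lp.norm_def]

lemma wco_toLp (A : E ≃L[ℝ] E) (b : E) (w : E → ℂ) (hw : Wt A w) {u : E → ℂ}
    (hu : MemLp u 2 volume) :
    wco A b w hw (hu.toLp u) = (memLp_wco A b w hw hu).toLp _ := by
  change (memLp_wco A b w hw (Lp.memLp (hu.toLp u))).toLp _ = _
  apply MemLp.toLp_congr
  have h := (qmp_aff A b).ae hu.coeFn_toLp
  filter_upwards [h] with x hx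
  rw [hx]

lemma coeFn_wco (A : E ≃L[ℝ] E) (b : E) (w : E → ℂ) (hw : Wt A w)
    (u : Lp ℂ 2 (volume : Measure E)) :
    (wco A b w hw u : E → ℂ) =ᵐ[volume] fun x => w x * u (A x - b) :=
  MemLp.coeFn_toLp (memLp_wco A b w hw (Lp.memLp u))

/-- The two weights attached to an affine map in the time domain and in the frequency domain. -/
noncomputable def wT (A : E ≃L[ℝ] E) : E → ℂ := fun _ => ((Real.sqrt (adet A) : ℝ) : ℂ)

noncomputable def wF (A : E ≃L[ℝ] E) (b : E) : E → ℂ := fun ξ =>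
  ((Real.sqrt (adet A) : ℝ) : ℂ) *
    Complex.exp (((-2 * Real.pi * inner ℝ b (A ξ) : ℝ) : ℂ) * Complex.I)

lemma wt_wT (A : E ≃L[ℝ] E) : Wt A (wT A) where
  meas := measurable_const
  norm x := by
    unfold wT
    rw [Complex.norm_real, Real.norm_eq_abs, sq_abs, Real.sq_sqrt (adet_pos A).le]

lemma wt_wF (A : E ≃L[ℝ] E) (b : E) : Wt A (wF A b) where
  meas := by unfold wF; fun_prop
  norm x := by
    unfold wF
    rw [norm_mul, Complex.norm_exp_ofReal_mul_I, mul_one,
      Complex.norm_real, Real.norm_eq_abs, sq_abs, Real.sq_sqrt (adet_pos A).le]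

/-- The composition of a Schwartz function with an affine map. -/
noncomputable def schwAff (A : E ≃L[ℝ] E) (b : E) (f : SchwartzMap E ℂ) : SchwartzMap E ℂ :=
  SchwartzMap.compCLMOfAntilipschitz ℂ (g := fun x => A x - b) (by fun_prop)
    (K := ‖(A.symm : E →L[ℝ] E)‖₊) (by
      intro x y
      have := A.antilipschitz x y
      simpa [edist_eq_enorm_sub] using this) f



lemma fourier_schwAff (A A' : E ≃L[ℝ] E) (b : E)
    (hA : ∀ x ξ, inner ℝ (A x) (A' ξ) = inner ℝ x ξ) (hd : adet A' = (adet A)⁻¹)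
    (f : SchwartzMap E ℂ) (ξ : E) :
    𝓕 (((Real.sqrt (adet A) : ℝ) : ℂ) • schwAff A b f) ξ = wF A' b ξ * 𝓕 f (A' ξ) := by
  rw [SchwartzMap.fourier_coe, SchwartzMap.fourier_coe, Real.fourier_eq', Real.fourier_eq']
  have e : ∀ x : E, Complex.exp ((↑(-2 * Real.pi * inner ℝ x ξ) * Complex.I)) •
      ((((Real.sqrt (adet A) : ℝ) : ℂ) • schwAff A b f) x) =
      (fun y => ((Real.sqrt (adet A) : ℝ) : ℂ) * (Complex.exp
        ((↑(-2 * Real.pi * inner ℝ b (A' ξ)) * Complex.I)) *
        (Complex.exp ((↑(-2 * Real.pi * inner ℝ y (A' ξ)) * Complex.I)) • f y))) (A x - b) := by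
    intro x
    simp only [smul_eq_mul]
    have h1 : (((Real.sqrt (adet A) : ℝ) : ℂ) • schwAff A b f) x =
        ((Real.sqrt (adet A) : ℝ) : ℂ) * f (A x - b) := rfl
    rw [h1]
    have h2 : inner ℝ x ξ = inner ℝ b (A' ξ) + inner ℝ (A x - b) (A' ξ) := by
      rw [inner_sub_left, hA]; ring
    rw [h2]
    have h3 : Complex.exp (((-2 * Real.pi * (inner ℝ b (A' ξ) + inner ℝ (A x - b) (A' ξ)) : ℝ) : ℂ)
        * Complex.I) = Complex.exp (((-2 * Real.pi * inner ℝ b (A' ξ) : ℝ) : ℂ) * Complex.I) *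
        Complex.exp (((-2 * Real.pi * inner ℝ (A x - b) (A' ξ) : ℝ) : ℂ) * Complex.I) := by
      rw [← Complex.exp_add]; congr 1; push_cast; ring
    rw [h3]; ring
  simp_rw [e]
  rw [integral_aff A b (fun y => ((Real.sqrt (adet A) : ℝ) : ℂ) * (Complex.exp
        ((↑(-2 * Real.pi * inner ℝ b (A' ξ)) * Complex.I)) *
        (Complex.exp ((↑(-2 * Real.pi * inner ℝ y (A' ξ)) * Complex.I)) • f y)))]
  rw [integral_const_mul, integral_const_mul]
  unfold wF
  rw [hd]
  have hp := adet_pos A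
  have h4 : Real.sqrt (adet A)⁻¹ = (adet A)⁻¹ * Real.sqrt (adet A) := by
    rw [Real.sqrt_inv]
    have := Real.mul_self_sqrt hp.le
    have h5 : Real.sqrt (adet A) ≠ 0 := (Real.sqrt_pos.2 hp).ne'
    field_simp
    nlinarith
  rw [h4, Complex.real_smul]
  push_cast
  ring

theorem fourier_wco (A A' : E ≃L[ℝ] E) (b : E)
    (hA : ∀ x ξ, inner ℝ (A x) (A' ξ) = inner ℝ x ξ) (hd : adet A' = (adet A)⁻¹)
    (u : Lp ℂ 2 (volume : Measure E)) :
    𝓕 (wco A b (wT A) (wt_wT A) u) = wco A' 0 (wF A' b) (wt_wF A' b) (𝓕 u) := by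
  have hdense := SchwartzMap.denseRange_toLpCLM (E := E) (F := ℂ) (p := 2)
    (μ := (volume : Measure E)) (by norm_num : (2:ℝ≥0∞) ≠ ⊤)
  refine hdense.induction_on (p := fun u => 𝓕 (wco A b (wT A) (wt_wT A) u) =
    wco A' 0 (wF A' b) (wt_wF A' b) (𝓕 u)) u ?_ ?_
  · apply isClosed_eq
    · exact (Lp.fourierTransformₗᵢ E ℂ).continuous.comp (wco A b (wT A) (wt_wT A)).continuous
    · exact (wco A' 0 (wF A' b) (wt_wF A' b)).continuous.comp
        (Lp.fourierTransformₗᵢ E ℂ).continuous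
  · intro f
    rw [SchwartzMap.toLpCLM_apply]
    have h1 : wco A b (wT A) (wt_wT A) (f.toLp 2) =
        (((Real.sqrt (adet A) : ℝ) : ℂ) • schwAff A b f).toLp 2 := by
      rw [SchwartzMap.toLp, wco_toLp, SchwartzMap.toLp]
      rfl
    rw [h1, SchwartzMap.toLp_fourier_eq, SchwartzMap.toLp_fourier_eq]
    rw [SchwartzMap.toLp, SchwartzMap.toLp, wco_toLp]
    apply MemLp.toLp_congr
    refine Filter.Eventually.of_forall fun ξ => ?_
    simp only [sub_zero]
    exact fourier_schwAff A A' b hA hd f ξ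

end Pool.Agent.Helper537.FT
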