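import Pool.Agent.Helper537.CalPlane
import Pool.Agent.Helper537.CalDefs
import Pool.Agent.Helper537.FT

set_option autoImplicit false
open MeasureTheory
open scoped FourierTransform ENNReal

namespace Pool.Agent.Helper537.Calderon
open Pool.Agent.Helper537.Cal Pool.Agent.Helper537.FT

section abs

/-- A family of unit vectors satisfying the Parseval identity is a complete orthonormal system. -/
lemma onb_of_parseval {H ι : Type*} [NormedAddCommGroup H] [InnerProductSpace ℂ H] (v : ι → H)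
    (h1 : ∀ i, ‖v i‖ = 1) (h2 : ∀ f : H, ∑' i, ‖inner ℂ (v i) f‖ₑ ^ 2 = ‖f‖ₑ ^ 2) :
    Orthonormal ℂ v ∧ (Submodule.span ℂ (Set.range v))ᗮ = ⊥ := by
  classical
  constructor
  · refine ⟨h1, ?_⟩
    intro i j hij
    have h3 := h2 (v j)
    have h4 := ENNReal.sum_le_tsum (f := fun k => ‖inner ℂ (v k) (v j)‖ₑ ^ 2) {i, j}
    rw [h3, Finset.sum_pair hij] at h4
    have h5 : ‖inner ℂ (v j) (v j)‖ₑ = 1 := by
      rw [inner_self_eq_norm_sq_to_K, h1 j, ← ofReal_norm]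
      simp
    have h6 : ‖v j‖ₑ = 1 := by
      rw [← ofReal_norm, h1 j, ENNReal.ofReal_one]
    rw [h5, h6] at h4
    have h7 : ‖inner ℂ (v i) (v j)‖ₑ ^ 2 ≤ 0 := by
      have h8 : ‖inner ℂ (v i) (v j)‖ₑ ^ 2 + 1 ≤ 0 + 1 := by simpa using h4
      exact (ENNReal.add_le_add_iff_right ENNReal.one_ne_top).1 h8
    have h9 : ‖inner ℂ (v i) (v j)‖ₑ = 0 := by
      have := le_antisymm h7 bot_le
      exact pow_eq_zero_iff (two_ne_zero) |>.1 this
    exact enorm_eq_zero.1 h9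
  · rw [Submodule.eq_bot_iff]
    intro f hf
    have h3 := h2 f
    have h4 : ∀ i, inner ℂ (v i) f = 0 := fun i =>
      (Submodule.mem_orthogonal _ f).1 hf (v i) (Submodule.subset_span ⟨i, rfl⟩)
    simp only [h4] at h3
    simp only [enorm_zero, ne_eq, OfNat.ofNat_ne_zero, not_false_eq_true, zero_pow, tsum_zero] at h3
    have h5 : ‖f‖ₑ = 0 := pow_eq_zero_iff (two_ne_zero) |>.1 h3.symm
    exact enorm_eq_zero.1 h5

end abs

section coords

/-- The coordinates. -/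
noncomputable def ce : E 2 ≃ᵐ ℝ × ℝ :=
  (MeasurableEquiv.toLp 2 (Fin 2 → ℝ)).symm.trans MeasurableEquiv.finTwoArrow

lemma ce_apply (x : E 2) : ce x = (x 0, x 1) := rfl

lemma mp_ce : MeasurePreserving ce (volume : Measure (E 2)) volume :=
  (volume_preserving_finTwoArrow ℝ).comp
    (EuclideanSpace.volume_preserving_symm_measurableEquiv_toLp (Fin 2))

/-- The diagonal automorphism of the plane. -/
noncomputable def dg (a b : ℝ) (ha : a ≠ 0) (hb : b ≠ 0) : E 2 ≃L[ℝ] E 2 :=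
  LinearEquiv.toContinuousLinearEquiv
  { toFun := fun x => !₂[a * x 0, b * x 1]
    map_add' := by
      intro x y
      ext i
      fin_cases i <;> simp [mul_add]
    map_smul' := by
      intro c x
      ext i
      fin_cases i <;> simp [mul_left_comm]
    invFun := fun x => !₂[a⁻¹ * x 0, b⁻¹ * x 1]
    left_inv := by
      intro x
      ext i
      fin_cases i <;> simp [ha, hb]
    right_inv := by
      intro x
      ext i
      fin_cases i <;> simp [ha, hb] }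

lemma dg_zero (a b : ℝ) (ha : a ≠ 0) (hb : b ≠ 0) (x : E 2) : dg a b ha hb x 0 = a * x 0 := rfl

lemma dg_one (a b : ℝ) (ha : a ≠ 0) (hb : b ≠ 0) (x : E 2) : dg a b ha hb x 1 = b * x 1 := rfl

lemma ext2 {x y : E 2} (h0 : x 0 = y 0) (h1 : x 1 = y 1) : x = y := by
  ext i
  fin_cases i
  · exact h0
  · exact h1

lemma dg_mul (a b a' b' : ℝ) (ha : a ≠ 0) (hb : b ≠ 0) (ha' : a' ≠ 0) (hb' : b' ≠ 0) :
    dg a b ha hb * dg a' b' ha' hb' = dg (a * a') (b * b') (mul_ne_zero ha ha') (mul_ne_zero hb hb') := by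
  ext x i
  fin_cases i
  · change a * (a' * x 0) = a * a' * x 0
    ring
  · change b * (b' * x 1) = b * b' * x 1
    ring

lemma dg_inv (a b : ℝ) (ha : a ≠ 0) (hb : b ≠ 0) :
    (dg a b ha hb)⁻¹ = dg a⁻¹ b⁻¹ (inv_ne_zero ha) (inv_ne_zero hb) := by
  ext x i
  fin_cases i <;> rfl

lemma dg_zpow (a b : ℝ) (ha : a ≠ 0) (hb : b ≠ 0) (j : ℤ) :
    (dg a b ha hb) ^ j = dg (a ^ j) (b ^ j) (zpow_ne_zero j ha) (zpow_ne_zero j hb) := by
  have key : ∀ (n : ℕ) (a b : ℝ) (ha : a ≠ 0) (hb : b ≠ 0), (dg a b ha hb) ^ n =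
      dg (a ^ n) (b ^ n) (pow_ne_zero n ha) (pow_ne_zero n hb) := by
    intro n a b ha hb
    induction n with
    | zero =>
      ext x i
      fin_cases i
      · change x 0 = a ^ 0 * x 0
        simp
      · change x 1 = b ^ 0 * x 1
        simp
    | succ n ih =>
      rw [pow_succ, ih, dg_mul]
      congr 1
  obtain ⟨n, rfl | rfl⟩ := j.eq_nat_or_neg
  · rw [zpow_natCast, key]
    congr 1
  · rw [zpow_neg, zpow_natCast, key, dg_inv]
    congr 1 <;> rw [zpow_neg, zpow_natCast]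

lemma det_dg (a b : ℝ) (ha : a ≠ 0) (hb : b ≠ 0) :
    LinearMap.det ((dg a b ha hb : E 2 ≃L[ℝ] E 2) : E 2 →ₗ[ℝ] E 2) = a * b := by
  rw [← LinearMap.det_toMatrix (EuclideanSpace.basisFun (Fin 2) ℝ).toBasis, Matrix.det_fin_two]
  simp only [LinearMap.toMatrix_apply]
  have e : ∀ i j : Fin 2, ((EuclideanSpace.basisFun (Fin 2) ℝ).toBasis.repr
      (((dg a b ha hb : E 2 ≃L[ℝ] E 2) : E 2 →ₗ[ℝ] E 2)
        ((EuclideanSpace.basisFun (Fin 2) ℝ).toBasis j))) i =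
      (dg a b ha hb (EuclideanSpace.single j (1 : ℝ))) i := by
    intro i j
    simp
  rw [e, e, e, e, dg_zero, dg_one, dg_zero, dg_one]
  simp

lemma adet_dg (a b : ℝ) (ha : a ≠ 0) (hb : b ≠ 0) : adet (dg a b ha hb) = |a * b| := by
  unfold adet
  rw [det_dg]

lemma absDet_dg (a b : ℝ) (ha : a ≠ 0) (hb : b ≠ 0) : absDet (dg a b ha hb) = |a * b| := by
  unfold absDet
  rw [det_dg]

lemma inner_two (x y : E 2) : inner ℝ x y = x 0 * y 0 + x 1 * y 1 := by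
  rw [PiLp.inner_apply, Fin.sum_univ_two]
  simp [mul_comm]

lemma adj_dg (a b : ℝ) (ha : a ≠ 0) (hb : b ≠ 0) :
    ContinuousLinearMap.adjoint ((dg a b ha hb : E 2 ≃L[ℝ] E 2) : E 2 →L[ℝ] E 2) =
      ((dg a b ha hb : E 2 ≃L[ℝ] E 2) : E 2 →L[ℝ] E 2) := by
  symm
  rw [ContinuousLinearMap.eq_adjoint_iff]
  intro x y
  rw [inner_two, inner_two]
  simp only [ContinuousLinearEquiv.coe_coe, dg_zero, dg_one]
  ring

end coords


section transfer

variable {lam : ℝ} {q : ℕ}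

/-- The Hilbert space of square integrable functions on the plane. -/
abbrev L2E : Type := Lp ℂ 2 (volume : Measure (E 2))

lemma memLp_comp_ce {u : ℝ × ℝ → ℂ} (hu : MemLp u 2 volume) :
    MemLp (fun x : E 2 => u (ce x)) 2 volume :=
  hu.comp_measurePreserving mp_ce

/-- The Fourier transforms of the elements of the system, as elements of the Hilbert space. -/
noncomputable def gL (hl : 1 < lam) (hq : 2 ≤ q) (p : ℤ × (ℤ × ℤ)) : L2E :=
  (memLp_comp_ce (memLp_G hl hq p.1 p.2)).toLp (fun x : E 2 => G lam q p.1 p.2 (ce x))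

lemma enorm_sq (u : L2E) : ‖u‖ₑ ^ 2 = ∫⁻ x, ‖u x‖ₑ ^ 2 := by
  rw [Lp.enorm_def, eLpNorm_two_sq]

lemma lintegral_ce (u : ℝ × ℝ → ℝ≥0∞) : ∫⁻ x : E 2, u (ce x) = ∫⁻ p, u p := by
  have := mp_ce.map_eq
  rw [← this, lintegral_map_equiv]

lemma enorm_gL (hl : 1 < lam) (hq : 2 ≤ q) (p : ℤ × (ℤ × ℤ)) : ‖gL hl hq p‖ₑ ^ 2 = 1 := by
  rw [enorm_sq]
  have h : ∀ᵐ x : E 2, ‖gL hl hq p x‖ₑ ^ 2 = (fun y => ‖G lam q p.1 p.2 y‖ₑ ^ 2) (ce x) := by
    filter_upwards [(memLp_comp_ce (memLp_G hl hq p.1 p.2)).coeFn_toLp] with x hx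
    unfold gL
    rw [hx]
  rw [lintegral_congr_ae h, lintegral_ce (fun y => ‖G lam q p.1 p.2 y‖ₑ ^ 2), lint_G hl hq]

lemma norm_gL (hl : 1 < lam) (hq : 2 ≤ q) (p : ℤ × (ℤ × ℤ)) : ‖gL hl hq p‖ = 1 := by
  have h := enorm_gL hl hq p
  rw [← ofReal_norm, ← ENNReal.ofReal_pow (norm_nonneg _), ENNReal.ofReal_eq_one] at h
  nlinarith [norm_nonneg (gL hl hq p)]

lemma inner_gL (hl : 1 < lam) (hq : 2 ≤ q) (p : ℤ × (ℤ × ℤ)) (f : L2E) (g : ℝ × ℝ → ℂ)
    (hg : (f : E 2 → ℂ) =ᵐ[volume] fun x => g (ce x)) :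
    inner ℂ (gL hl hq p) f = ∫ y, (starRingEnd ℂ) (G lam q p.1 p.2 y) * g y := by
  rw [L2.inner_def]
  have h : ∀ᵐ x : E 2, inner ℂ (gL hl hq p x) (f x) =
      (fun y => (starRingEnd ℂ) (G lam q p.1 p.2 y) * g y) (ce x) := by
    filter_upwards [(memLp_comp_ce (memLp_G hl hq p.1 p.2)).coeFn_toLp, hg] with x hx hx2
    unfold gL
    rw [hx, hx2]
    simp [mul_comm]
  rw [integral_congr_ae h]
  have h2 := mp_ce.integral_comp' (g := fun y => (starRingEnd ℂ) (G lam q p.1 p.2 y) * g y)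
  exact h2

lemma parseval_gL (hl : 1 < lam) (hq : 2 ≤ q) (f : L2E) :
    ∑' p, ‖inner ℂ (gL hl hq p) f‖ₑ ^ 2 = ‖f‖ₑ ^ 2 := by
  obtain ⟨u, hu, hu2⟩ := Lp.aestronglyMeasurable f
  set g : ℝ × ℝ → ℂ := fun y => u (ce.symm y) with hg
  have hgm : Measurable g := hu.measurable.comp ce.symm.measurable
  have h1 : (f : E 2 → ℂ) =ᵐ[volume] fun x => g (ce x) := by
    filter_upwards [hu2] with x hx
    rw [hx, hg]
    simp
  simp_rw [inner_gL hl hq _ f g h1]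
  have h2 : ‖f‖ₑ ^ 2 = ∫⁻ y, ‖g y‖ₑ ^ 2 := by
    rw [enorm_sq, ← lintegral_ce]
    apply lintegral_congr_ae
    filter_upwards [h1] with x hx
    rw [hx]
  rw [h2]
  apply frame hl hq hgm
  rw [← h2]
  simp

/-- The Fourier transform of the wavelet. -/
noncomputable def psiHat (hl : 1 < lam) (hq : 2 ≤ q) : L2E := gL hl hq (0, (0, 0))

/-- The wavelet. -/
noncomputable def psi (hl : 1 < lam) (hq : 2 ≤ q) : L2E := 𝓕⁻ (psiHat hl hq)

lemma fourier_psi (hl : 1 < lam) (hq : 2 ≤ q) : 𝓕 (psi hl hq) = psiHat hl hq :=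
  FourierTransform.fourier_fourierInv_eq _

lemma G_zero (p : ℝ × ℝ) : G lam q 0 (0, 0) p = Psi lam q p := by
  unfold G
  simp

lemma psiHat_ae (hl : 1 < lam) (hq : 2 ≤ q) :
    (psiHat hl hq : E 2 → ℂ) =ᵐ[volume] fun x => Psi lam q (ce x) := by
  filter_upwards [(memLp_comp_ce (memLp_G hl hq 0 (0, 0))).coeFn_toLp] with x hx
  unfold psiHat gL
  rw [hx, G_zero]

/-- The dilation. -/
noncomputable def AA (hl : 1 < lam) (hq : 2 ≤ q) : E 2 ≃L[ℝ] E 2 :=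
  dg lam (1 / q) (by linarith) (by
    have : (0 : ℝ) < q := by exact_mod_cast (by omega : 0 < q)
    positivity)

lemma AA_zpow (hl : 1 < lam) (hq : 2 ≤ q) (j : ℤ) (h1 : lam ^ j ≠ 0) (h2 : (1 / (q : ℝ)) ^ j ≠ 0) :
    (AA hl hq) ^ j = dg (lam ^ j) ((1 / q) ^ j) h1 h2 := by
  unfold AA
  rw [dg_zpow]

/-- The element of the system, as an element of the Hilbert space. -/
noncomputable def uL (hl : 1 < lam) (hq : 2 ≤ q) (j : ℤ) (k : E 2) : L2E :=
  wco ((AA hl hq) ^ j) k (wT _) (wt_wT _) (psi hl hq)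

lemma fourier_uL (hl : 1 < lam) (hq : 2 ≤ q) (j : ℤ) (k : E 2) (m n : ℤ) (hm : k 0 = m)
    (hn : k 1 = n) : 𝓕 (uL hl hq j k) = gL hl hq (j, (m, n)) := by
  have h0 : 0 < lam := by linarith
  have hq0 : (0 : ℝ) < q := by exact_mod_cast (by omega : 0 < q)
  have hA1 : lam ^ j ≠ 0 := (zpow_pos h0 j).ne'
  have hA2 : (1 / (q : ℝ)) ^ j ≠ 0 := (zpow_pos (by positivity) j).ne'
  have hB1 : lam ^ (-j) ≠ 0 := (zpow_pos h0 _).ne'
  have hB2 : (q : ℝ) ^ j ≠ 0 := (zpow_pos hq0 j).ne'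
  unfold uL
  have e0 : (AA hl hq) ^ j = dg (lam ^ j) ((1 / q) ^ j) hA1 hA2 := AA_zpow hl hq j hA1 hA2
  have e1 : ∀ x ξ : E 2, inner ℝ (((AA hl hq) ^ j) x) (dg (lam ^ (-j)) ((q : ℝ) ^ j) hB1 hB2 ξ) =
      inner ℝ x ξ := by
    intro x ξ
    rw [e0, inner_two, inner_two, dg_zero, dg_one, dg_zero, dg_one]
    have e2 : lam ^ j * lam ^ (-j) = 1 := by rw [← zpow_add₀ h0.ne']; simp
    have e3 : (1 / (q : ℝ)) ^ j * (q : ℝ) ^ j = 1 := by
      rw [← mul_zpow, one_div, inv_mul_cancel₀ hq0.ne', one_zpow]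
    linear_combination (x 0 * ξ 0) * e2 + (x 1 * ξ 1) * e3
  have e2 : adet (dg (lam ^ (-j)) ((q : ℝ) ^ j) hB1 hB2) = (adet ((AA hl hq) ^ j))⁻¹ := by
    rw [e0, adet_dg, adet_dg, ← abs_inv, mul_inv, zpow_neg, one_div, inv_zpow, inv_inv]
  rw [fourier_wco _ (dg (lam ^ (-j)) ((q : ℝ) ^ j) hB1 hB2) k e1 e2, fourier_psi]
  apply Lp.ext
  have h1 := coeFn_wco (dg (lam ^ (-j)) ((q : ℝ) ^ j) hB1 hB2) 0
    (wF (dg (lam ^ (-j)) ((q : ℝ) ^ j) hB1 hB2) k) (wt_wF _ _) (psiHat hl hq)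
  have h2 := (qmp_aff (dg (lam ^ (-j)) ((q : ℝ) ^ j) hB1 hB2) 0).ae (psiHat_ae hl hq)
  have h3 : (gL hl hq (j, (m, n)) : E 2 → ℂ) =ᵐ[volume] fun x => G lam q j (m, n) (ce x) :=
    (memLp_comp_ce (memLp_G hl hq j (m, n))).coeFn_toLp
  filter_upwards [h1, h2, h3] with x hx1 hx2 hx3
  rw [hx1, hx2, hx3]
  simp only [sub_zero]
  rw [ce_apply, ce_apply, dg_zero, dg_one]
  unfold G wF
  rw [adet_dg, inner_two, dg_zero, dg_one, hm, hn]
  have e4 : |lam ^ (-j) * (q : ℝ) ^ j| = lam ^ (-j) * (q : ℝ) ^ j := by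
    rw [abs_of_pos]; positivity
  rw [e4]
  congr 3
  push_cast
  ring

lemma inner_uL (hl : 1 < lam) (hq : 2 ≤ q) (j : ℤ) (k : E 2) (m n : ℤ) (hm : k 0 = m)
    (hn : k 1 = n) (f : L2E) :
    inner ℂ (uL hl hq j k) f = inner ℂ (gL hl hq (j, (m, n))) (𝓕 f) := by
  rw [← fourier_uL hl hq j k m n hm hn, Lp.inner_fourier_eq]

/-- The integer lattice is parametrized by pairs of integers. -/
noncomputable def lat (p : ℤ × ℤ) : E 2 := !₂[(p.1 : ℝ), (p.2 : ℝ)]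

lemma lat_mem (p : ℤ × ℤ) : lat p ∈ intLattice 2 := by
  unfold intLattice
  have e : (Set.range (EuclideanSpace.basisFun (Fin 2) ℝ)) =
      Set.range ((EuclideanSpace.basisFun (Fin 2) ℝ).toBasis) := by simp
  rw [e, Module.Basis.mem_span_iff_repr_mem]
  intro i
  fin_cases i
  · exact ⟨p.1, by simp [lat]⟩
  · exact ⟨p.2, by simp [lat]⟩

lemma exists_lat {x : E 2} (hx : x ∈ intLattice 2) : ∃ p : ℤ × ℤ, lat p = x := by
  unfold intLattice at hx
  have e : (Set.range (EuclideanSpace.basisFun (Fin 2) ℝ)) =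
      Set.range ((EuclideanSpace.basisFun (Fin 2) ℝ).toBasis) := by simp
  rw [e, Module.Basis.mem_span_iff_repr_mem] at hx
  obtain ⟨a, ha⟩ := hx 0
  obtain ⟨b, hb⟩ := hx 1
  refine ⟨(a, b), ?_⟩
  apply ext2
  · simpa [lat] using ha
  · simpa [lat] using hb

/-- Pairs of integers are the points of the integer lattice. -/
noncomputable def latEquiv : ℤ × ℤ ≃ intLattice 2 :=
  Equiv.ofBijective (fun p => ⟨lat p, lat_mem p⟩) (by
    constructor
    · intro p p' h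
      have h1 : lat p = lat p' := congrArg Subtype.val h
      have h2 : (p.1 : ℝ) = p'.1 := by
        have h2 : lat p 0 = lat p' 0 := by rw [h1]
        simpa [lat] using h2
      have h3 : (p.2 : ℝ) = p'.2 := by
        have h3 : lat p 1 = lat p' 1 := by rw [h1]
        simpa [lat] using h3
      ext
      · exact_mod_cast h2
      · exact_mod_cast h3
    · rintro ⟨x, hx⟩
      obtain ⟨p, rfl⟩ := exists_lat hx
      exact ⟨p, rfl⟩)

lemma latEquiv_apply (p : ℤ × ℤ) : (latEquiv p : E 2) = lat p := rfl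

lemma parseval_uL (hl : 1 < lam) (hq : 2 ≤ q) (f : L2E) :
    ∑' p : ℤ × intLattice 2, ‖inner ℂ (uL hl hq p.1 (p.2 : E 2)) f‖ₑ ^ 2 = ‖f‖ₑ ^ 2 := by
  rw [← ((Equiv.refl ℤ).prodCongr latEquiv).tsum_eq]
  have e : ∀ p : ℤ × (ℤ × ℤ), inner ℂ (uL hl hq (((Equiv.refl ℤ).prodCongr latEquiv) p).1
      ((((Equiv.refl ℤ).prodCongr latEquiv) p).2 : E 2)) f = inner ℂ (gL hl hq p) (𝓕 f) := by
    rintro ⟨j, p⟩
    exact inner_uL hl hq j (lat p) p.1 p.2 (by simp [lat]) (by simp [lat]) f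
  simp_rw [e]
  rw [parseval_gL hl hq (𝓕 f)]
  have h : ‖𝓕 f‖ = ‖f‖ := (Lp.fourierTransformₗᵢ (E 2) ℂ).norm_map f
  rw [← ofReal_norm, ← ofReal_norm, h]

lemma norm_uL (hl : 1 < lam) (hq : 2 ≤ q) (p : ℤ × intLattice 2) :
    ‖uL hl hq p.1 (p.2 : E 2)‖ = 1 := by
  obtain ⟨j, k⟩ := p
  obtain ⟨m, hm⟩ := latEquiv.surjective k
  have h : ‖𝓕 (uL hl hq j (k : E 2))‖ = ‖uL hl hq j (k : E 2)‖ :=
    (Lp.fourierTransformₗᵢ (E 2) ℂ).norm_map _
  rw [← h, ← hm, fourier_uL hl hq j _ m.1 m.2 (by simp [latEquiv_apply, lat])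
    (by simp [latEquiv_apply, lat]), norm_gL]

lemma uL_ae (hl : 1 < lam) (hq : 2 ≤ q) (j : ℤ) (k : E 2) :
    (uL hl hq j k : E 2 → ℂ) =ᵐ[volume] wav (AA hl hq) (psi hl hq) j k := by
  have h0 : 0 < lam := by linarith
  have hq0 : (0 : ℝ) < q := by exact_mod_cast (by omega : 0 < q)
  filter_upwards [coeFn_wco ((AA hl hq) ^ j) k (wT _) (wt_wT _) (psi hl hq)] with x hx
  unfold uL
  rw [hx]
  unfold wav wT
  congr 2
  have hA1 : lam ^ j ≠ 0 := (zpow_pos h0 j).ne'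
  have hA2 : (1 / (q : ℝ)) ^ j ≠ 0 := (zpow_pos (by positivity) j).ne'
  rw [AA_zpow hl hq j hA1 hA2, adet_dg, ← mul_zpow, abs_zpow]
  unfold AA
  rw [absDet_dg, Real.sqrt_eq_rpow, ← Real.rpow_intCast, ← Real.rpow_mul (abs_nonneg _)]
  congr 1
  ring

end transfer

section final

variable {lam : ℝ} {q : ℕ}

theorem isOrthonormalWavelet_psi (hl : 1 < lam) (hq : 2 ≤ q) :
    IsOrthonormalWavelet (AA hl hq) (intLattice 2) (psi hl hq) := by
  obtain ⟨h1, h2⟩ := onb_of_parseval (fun p : ℤ × intLattice 2 => uL hl hq p.1 (p.2 : E 2))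
    (norm_uL hl hq) (parseval_uL hl hq)
  refine ⟨HilbertBasis.mkOfOrthogonalEqBot h1 h2, ?_⟩
  intro j k
  rw [HilbertBasis.coe_mkOfOrthogonalEqBot]
  exact uL_ae hl hq j (k : E 2)

theorem isParsevalWavelet_psi (hl : 1 < lam) (hq : 2 ≤ q) :
    IsParsevalWavelet (AA hl hq) (intLattice 2) (psi hl hq) := by
  intro f
  have h1 := parseval_uL hl hq f
  have h2 : ∀ p : ℤ × intLattice 2,
      ‖∫ x, f x * (starRingEnd ℂ) (wav (AA hl hq) (psi hl hq) p.1 p.2 x)‖ =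
        ‖inner ℂ (uL hl hq p.1 (p.2 : E 2)) f‖ := by
    intro p
    rw [L2.inner_def]
    congr 1
    apply integral_congr_ae
    filter_upwards [uL_ae hl hq p.1 (p.2 : E 2)] with x hx
    rw [← hx]
    simp
  simp_rw [h2]
  have h3 : ∀ p : ℤ × intLattice 2, ‖inner ℂ (uL hl hq p.1 (p.2 : E 2)) f‖ₑ ^ 2 =
      ENNReal.ofReal (‖inner ℂ (uL hl hq p.1 (p.2 : E 2)) f‖ ^ 2) := by
    intro p
    rw [ENNReal.ofReal_pow (norm_nonneg _), ofReal_norm]
  have h4 : ‖f‖ₑ ^ 2 = ENNReal.ofReal (‖f‖ ^ 2) := by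
    rw [ENNReal.ofReal_pow (norm_nonneg _), ofReal_norm]
  simp_rw [h3, h4] at h1
  have h5 : Summable (fun p : ℤ × intLattice 2 => ‖inner ℂ (uL hl hq p.1 (p.2 : E 2)) f‖ ^ 2) := by
    apply ENNReal.summable_toReal (f := fun p : ℤ × intLattice 2 =>
      ENNReal.ofReal (‖inner ℂ (uL hl hq p.1 (p.2 : E 2)) f‖ ^ 2)) (by rw [h1]; exact ENNReal.ofReal_ne_top) |>.congr
    intro p
    rw [ENNReal.toReal_ofReal (by positivity)]
  rw [← ENNReal.ofReal_tsum_of_nonneg (fun p => by positivity) h5,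
    ENNReal.ofReal_eq_ofReal_iff (tsum_nonneg fun p => by positivity) (by positivity)] at h1
  rw [← h1]
  exact h5.hasSum

lemma covolume_intLattice : ZLattice.covolume (intLattice 2) = 1 := by
  unfold intLattice
  have e : (Set.range (EuclideanSpace.basisFun (Fin 2) ℝ)) =
      Set.range ((EuclideanSpace.basisFun (Fin 2) ℝ).toBasis) := by simp
  rw [e]
  rw [ZLattice.covolume_eq_measure_fundamentalDomain _ _
    (ZSpan.isAddFundamentalDomain ((EuclideanSpace.basisFun (Fin 2) ℝ).toBasis) volume)]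
  rw [measureReal_def, measure_congr (ZSpan.fundamentalDomain_ae_parallelepiped _ _)]
  have := (EuclideanSpace.basisFun (Fin 2) ℝ).volume_parallelepiped
  simp [this]

theorem not_calderonFormula_psi (hl : 1 < lam) (hq : 2 ≤ q) :
    ¬ CalderonFormula (AA hl hq) (intLattice 2) (psi hl hq) := by
  have h0 : 0 < lam := by linarith
  have hq0 : (0 : ℝ) < q := by exact_mod_cast (by omega : 0 < q)
  intro hC
  unfold CalderonFormula at hC
  rw [covolume_intLattice, ENNReal.ofReal_one, fourier_psi] at hC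
  have h1 : ∀ j : ℤ, ∀ᵐ ξ : E 2, psiHat hl hq (ContinuousLinearMap.adjoint
      (((AA hl hq) ^ j : E 2 ≃L[ℝ] E 2) : E 2 →L[ℝ] E 2) ξ) =
      Psi lam q (lam ^ j * ξ 0, (q : ℝ) ^ (-j) * ξ 1) := by
    intro j
    have hA1 : lam ^ j ≠ 0 := (zpow_pos h0 j).ne'
    have hA2 : (1 / (q : ℝ)) ^ j ≠ 0 := (zpow_pos (by positivity) j).ne'
    have h2 := (qmp_aff (dg (lam ^ j) ((1 / (q : ℝ)) ^ j) hA1 hA2) 0).ae (psiHat_ae hl hq)
    filter_upwards [h2] with ξ hξ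
    rw [AA_zpow hl hq j hA1 hA2, adj_dg, ContinuousLinearEquiv.coe_coe]
    rw [sub_zero] at hξ
    rw [hξ, ce_apply, dg_zero, dg_one]
    congr 2
    rw [one_div, inv_zpow, zpow_neg]
  rw [← ae_all_iff] at h1
  apply not_calderon (lam := lam) (q := q) hl hq
  have h3 : ∀ᵐ ξ : E 2, (fun p : ℝ × ℝ =>
      ∑' j : ℤ, ‖Psi lam q (lam ^ j * p.1, (q : ℝ) ^ (-j) * p.2)‖ₑ ^ 2 = 1) (ce ξ) := by
    filter_upwards [hC, h1] with ξ h4 h5
    simp only [ce_apply]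
    rw [← h4]
    congr 1
    funext j
    rw [h5 j]
  have h6 : MeasurePreserving ce.symm (volume : Measure (ℝ × ℝ)) volume := mp_ce.symm
  have h7 := h6.quasiMeasurePreserving.ae h3
  filter_upwards [h7] with p hp
  simpa using hp

/-- Calderon's formula fails for an orthonormal wavelet. -/
theorem main (hl : 1 < lam) (hq : 2 ≤ q) :
    ∃ A : E 2 ≃L[ℝ] E 2, IsDiag A lam (1 / q) ∧ CalderonFails A (intLattice 2) := by
  refine ⟨AA hl hq, ?_, psi hl hq, isOrthonormalWavelet_psi hl hq, isParsevalWavelet_psi hl hq,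
    not_calderonFormula_psi hl hq⟩
  intro x
  exact ⟨rfl, rfl⟩

end final

end Pool.Agent.Helper537.Calderon
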