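import Pool.Agent.Helper537.CalBase
set_option autoImplicit false
open MeasureTheory Set
open scoped ENNReal

namespace Pool.Agent.Helper537.Cal

section two

/-- The logarithmic scale of a nonzero real number. -/
noncomputable def aa (lam x : ℝ) : ℤ := ⌊Real.logb lam (2 * |x|)⌋

/-- The Fourier transform of the wavelet, on the plane. -/
noncomputable def Psi (lam : ℝ) (q : ℕ) (p : ℝ × ℝ) : ℂ :=
  if p.1 ≠ 0 ∧ aa lam p.1 ≤ -1 then
    ker ((q : ℝ) ^ (aa lam p.1 + 1)) ((gr q (-1 - aa lam p.1).toNat).2 : ℝ)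
      (gr q (-1 - aa lam p.1).toNat).1 p.2
  else 0

/-- The Fourier transforms of the elements of the wavelet system, on the plane. -/
noncomputable def G (lam : ℝ) (q : ℕ) (j : ℤ) (k : ℤ × ℤ) (p : ℝ × ℝ) : ℂ :=
  ((Real.sqrt (lam ^ (-j) * (q : ℝ) ^ j) : ℝ) : ℂ) *
    Complex.exp (-(2 * Real.pi * Complex.I *
      ((k.1 * (lam ^ (-j) * p.1) + k.2 * ((q : ℝ) ^ j * p.2) : ℝ) : ℂ))) *
    Psi lam q (lam ^ (-j) * p.1, (q : ℝ) ^ j * p.2)

lemma aa_scale {lam : ℝ} (hl : 1 < lam) {x : ℝ} (hx : x ≠ 0) (j : ℤ) :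
    aa lam (lam ^ j * x) = aa lam x + j := by
  have h0 : 0 < lam := by linarith
  have h1 : 2 * |lam ^ j * x| = lam ^ j * (2 * |x|) := by
    rw [abs_mul, abs_of_pos (zpow_pos h0 j)]; ring
  unfold aa
  rw [h1, Real.logb_mul (zpow_pos h0 j).ne' (by positivity)]
  have h2 : Real.logb lam (lam ^ j) = j := by
    rw [← Real.rpow_intCast, Real.logb_rpow h0 (by linarith)]
  rw [h2, add_comm, Int.floor_add_intCast]

lemma measurable_aa (lam : ℝ) : Measurable (aa lam) := by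
  unfold aa
  have h1 : Measurable (fun x : ℝ => Real.logb lam (2 * |x|)) := by
    unfold Real.logb
    exact (Real.measurable_log.comp ((measurable_const.mul (continuous_abs.measurable)))).div_const _
  exact Int.measurable_floor.comp h1

lemma aa_lt_iff {lam : ℝ} (hl : 1 < lam) {x : ℝ} (hx : x ≠ 0) (j : ℤ) :
    aa lam x < j ↔ |x| < lam ^ j / 2 := by
  have h0 : 0 < lam := by linarith
  unfold aa
  rw [Int.floor_lt, Real.logb_lt_iff_lt_rpow hl (by positivity), Real.rpow_intCast]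
  constructor <;> intro h <;> linarith

lemma win_iff {lam : ℝ} (hl : 1 < lam) {x : ℝ} (hx : x ≠ 0) (j : ℤ) (hx2 : x ≠ -(lam ^ j / 2)) :
    ((-(1 / 2) : ℝ) ≤ lam ^ (-j) * x ∧ lam ^ (-j) * x < -(1 / 2) + 1) ↔ aa lam x < j := by
  have h0 : 0 < lam := by linarith
  have hp : 0 < lam ^ j := zpow_pos h0 j
  rw [aa_lt_iff hl hx, zpow_neg, abs_lt, inv_mul_eq_div]
  rw [le_div_iff₀ hp, div_lt_iff₀ hp]
  constructor
  · rintro ⟨h1, h2⟩
    refine ⟨lt_of_le_of_ne (by linarith) hx2.symm, by linarith⟩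
  · rintro ⟨h1, h2⟩
    constructor <;> linarith

/-- The coset data at relative level. -/
@[irreducible] noncomputable def ss (q : ℕ) (l : ℕ) (k : ℤ) : ℤ × ℤ :=
  ((gr q l).1 + (q : ℤ) ^ l * k, (gr q l).2)

lemma ss_fst (q : ℕ) (l : ℕ) (k : ℤ) : (ss q l k).1 = (gr q l).1 + (q : ℤ) ^ l * k := by
  unfold ss; rfl

lemma ss_snd (q : ℕ) (l : ℕ) (k : ℤ) : (ss q l k).2 = (gr q l).2 := by
  unfold ss; rfl

lemma G_eq {lam : ℝ} (hl : 1 < lam) {q : ℕ} (hq : 2 ≤ q) (j : ℤ) (k : ℤ × ℤ) {x : ℝ} (y : ℝ)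
    (hx : x ≠ 0) (hx2 : x ≠ -(lam ^ j / 2)) :
    G lam q j k (x, y) = ker (lam ^ (-j)) (-(1 / 2)) k.1 x *
      (if aa lam x < j then
        ker ((q : ℝ) ^ (aa lam x + 1)) ((ss q (j - 1 - aa lam x).toNat k.2).2 : ℝ)
          (ss q (j - 1 - aa lam x).toNat k.2).1 y else 0) := by
  have h0 : 0 < lam := by linarith
  have hq0 : (0 : ℝ) < q := by exact_mod_cast (by omega : 0 < q)
  unfold G Psi
  have hne : lam ^ (-j) * x ≠ 0 := mul_ne_zero (zpow_pos h0 _).ne' hx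
  simp only [aa_scale hl hx, hne, ne_eq, not_false_eq_true, true_and]
  by_cases hj : aa lam x < j
  · have hj' : aa lam x + -j ≤ -1 := by omega
    rw [if_pos hj', if_pos hj]
    obtain ⟨l, hl2⟩ : ∃ l : ℕ, (l : ℤ) = j - 1 - aa lam x := ⟨(j - 1 - aa lam x).toNat, by omega⟩
    have e1 : (-1 - (aa lam x + -j)).toNat = l := by omega
    have e2 : (j - 1 - aa lam x).toNat = l := by omega
    rw [e1, e2]
    have e3 : aa lam x + -j + 1 = -(l : ℤ) := by omega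
    have e4 : aa lam x + 1 = j - l := by omega
    rw [e3, e4]
    have hw := (win_iff hl hx j hx2).2 hj
    rw [ss_snd, ss_fst]
    unfold ker
    rw [if_pos hw]
    have e5 : (q : ℝ) ^ (-(l : ℤ)) * ((q : ℝ) ^ j * y) = (q : ℝ) ^ (j - l) * y := by
      rw [← mul_assoc, ← zpow_add₀ hq0.ne']; congr 2; ring
    rw [e5]
    by_cases h6 : (((gr q l).2 : ℝ) ≤ (q : ℝ) ^ (j - (l : ℤ)) * y ∧
        (q : ℝ) ^ (j - (l : ℤ)) * y < ((gr q l).2 : ℝ) + 1)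
    · rw [if_pos h6, if_pos h6]
      have e6 : Real.sqrt (lam ^ (-j) * (q : ℝ) ^ j) * Real.sqrt ((q : ℝ) ^ (-(l : ℤ))) =
          Real.sqrt (lam ^ (-j)) * Real.sqrt ((q : ℝ) ^ (j - l)) := by
        rw [← Real.sqrt_mul (by positivity), ← Real.sqrt_mul (by positivity), mul_assoc,
          ← zpow_add₀ hq0.ne']
        rfl
      have e7 : Complex.exp (-(2 * Real.pi * Complex.I *
            ((k.1 * (lam ^ (-j) * x) + k.2 * ((q : ℝ) ^ j * y) : ℝ) : ℂ))) *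
          Complex.exp (-(2 * Real.pi * Complex.I * ((gr q l).1 : ℂ) * (((q : ℝ) ^ (j - l) * y : ℝ) : ℂ))) =
          Complex.exp (-(2 * Real.pi * Complex.I * (k.1 : ℂ) * ((lam ^ (-j) * x : ℝ) : ℂ))) *
          Complex.exp (-(2 * Real.pi * Complex.I * (((gr q l).1 + (q : ℤ) ^ l * k.2 : ℤ) : ℂ) *
            (((q : ℝ) ^ (j - l) * y : ℝ) : ℂ))) := by
        rw [← Complex.exp_add, ← Complex.exp_add]
        congr 1
        have e8 : ((q : ℝ) ^ j : ℝ) = (q : ℝ) ^ l * (q : ℝ) ^ (j - l) := by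
          rw [← zpow_natCast, ← zpow_add₀ hq0.ne']; congr 1; ring
        rw [e8]
        push_cast
        ring
      have e6' : ((Real.sqrt (lam ^ (-j) * (q : ℝ) ^ j) : ℝ) : ℂ) * ((Real.sqrt ((q : ℝ) ^ (-(l : ℤ))) : ℝ) : ℂ) =
          ((Real.sqrt (lam ^ (-j)) : ℝ) : ℂ) * ((Real.sqrt ((q : ℝ) ^ (j - l)) : ℝ) : ℂ) := by
        rw [← Complex.ofReal_mul, e6, Complex.ofReal_mul]
      calc _ = (((Real.sqrt (lam ^ (-j) * (q : ℝ) ^ j) : ℝ) : ℂ) * ((Real.sqrt ((q : ℝ) ^ (-(l : ℤ))) : ℝ) : ℂ)) *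
            (Complex.exp (-(2 * Real.pi * Complex.I *
            ((k.1 * (lam ^ (-j) * x) + k.2 * ((q : ℝ) ^ j * y) : ℝ) : ℂ))) *
          Complex.exp (-(2 * Real.pi * Complex.I * ((gr q l).1 : ℂ) * (((q : ℝ) ^ (j - l) * y : ℝ) : ℂ)))) := by ring
        _ = _ := by rw [e6', e7]; ring
    · rw [if_neg h6, if_neg h6]; simp
  · have hj' : ¬ (aa lam x + -j ≤ -1) := by omega
    rw [if_neg hj', if_neg hj]
    simp

end two


section three

lemma indic_ker {s : ℝ} (hs : 0 < s) (t : ℝ) (k : ℤ) (y : ℝ) :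
    ‖ker s t k y‖ₑ ^ 2 = (Ico (t / s) ((t + 1) / s)).indicator (fun _ => ENNReal.ofReal s) y := by
  have hw : y ∈ Ico (t / s) ((t + 1) / s) ↔ (t ≤ s * y ∧ s * y < t + 1) := by
    rw [← win_eq hs t]; rfl
  rw [indicator_apply]
  simp only [hw, ker]
  split_ifs with h
  · rw [← ofReal_norm, ← ENNReal.ofReal_pow (norm_nonneg _), norm_mul, mul_pow]
    congr 1
    rw [Complex.norm_real, Real.norm_eq_abs, sq_abs, Real.sq_sqrt hs.le, Complex.norm_exp]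
    simp
  · simp

lemma lint_ker {s : ℝ} (hs : 0 < s) (t : ℝ) (k : ℤ) : ∫⁻ y, ‖ker s t k y‖ₑ ^ 2 = 1 := by
  simp_rw [indic_ker hs t k]
  rw [lintegral_indicator_const measurableSet_Ico, Real.volume_Ico,
    ← ENNReal.ofReal_mul hs.le]
  have : s * ((t + 1) / s - t / s) = 1 := by field_simp; ring
  rw [this, ENNReal.ofReal_one]

lemma memLp_two_of {α : Type*} [MeasurableSpace α] {μ : Measure α} {u : α → ℂ}
    (hu : AEStronglyMeasurable u μ) (h : ∫⁻ x, ‖u x‖ₑ ^ 2 ∂μ ≠ ∞) : MemLp u 2 μ := by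
  refine ⟨hu, ?_⟩
  rw [eLpNorm_eq_lintegral_rpow_enorm_toReal (by norm_num) (by norm_num)]
  apply ENNReal.rpow_lt_top_of_nonneg (by positivity)
  simp only [ENNReal.toReal_ofNat, ENNReal.rpow_ofNat]
  exact h

lemma lint_of_memLp {α : Type*} [MeasurableSpace α] {μ : Measure α} {u : α → ℂ}
    (hu : MemLp u 2 μ) : ∫⁻ x, ‖u x‖ₑ ^ 2 ∂μ ≠ ∞ := by
  have h := hu.2
  rw [eLpNorm_eq_lintegral_rpow_enorm_toReal (by norm_num) (by norm_num)] at h
  simp only [ENNReal.toReal_ofNat, ENNReal.rpow_ofNat] at h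
  intro h2
  rw [h2] at h
  simp at h

lemma memLp_ker {s : ℝ} (hs : 0 < s) (t : ℝ) (k : ℤ) : MemLp (ker s t k) 2 volume := by
  apply memLp_two_of (measurable_ker s t k).aestronglyMeasurable
  rw [lint_ker hs t k]; exact ENNReal.one_ne_top

/-- Parseval identity on the line for the shifted windows. -/
lemma parseval_line {s : ℝ} (hs : 0 < s) {P : ℝ → ℂ} (hP : MemLp P 2 volume) :
    ∑' p : ℤ × ℤ, ‖∫ y, (starRingEnd ℂ) (ker s (p.2 : ℝ) p.1 y) * P y‖ₑ ^ 2 =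
      ∫⁻ y, ‖P y‖ₑ ^ 2 := by
  rw [ENNReal.tsum_prod', ENNReal.tsum_comm]
  simp only
  have h1 : ∀ n : ℤ, ∑' m : ℤ, ‖∫ y, (starRingEnd ℂ) (ker s (n : ℝ) m y) * P y‖ₑ ^ 2 =
      ∫⁻ y, (Ico ((n : ℝ) / s) (((n : ℝ) + 1) / s)).indicator (fun y => ‖P y‖ₑ ^ 2) y := by
    intro n
    rw [parseval_win hs (n : ℝ) (hP.restrict _), lintegral_indicator measurableSet_Ico]
  simp_rw [h1]
  rw [← lintegral_tsum]
  · apply lintegral_congr
    intro y
    rw [tsum_eq_single ⌊s * y⌋]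
    · rw [indicator_of_mem]
      rw [← win_eq hs]
      exact ⟨Int.floor_le _, Int.lt_floor_add_one _⟩
    · intro n hn
      apply indicator_of_notMem
      intro h
      rw [← win_eq hs] at h
      exact hn (Int.floor_eq_iff.2 h).symm
  · intro n
    exact (hP.1.enorm.pow_const 2).indicator measurableSet_Ico

end three

section four

variable {lam : ℝ} {q : ℕ}

/-- The vertical factor. -/
noncomputable def VK (lam : ℝ) (q : ℕ) (j k : ℤ) (p : ℝ × ℝ) : ℂ :=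
  ker ((q : ℝ) ^ (aa lam p.1 + 1)) ((ss q (j - 1 - aa lam p.1).toNat k).2 : ℝ)
          (ss q (j - 1 - aa lam p.1).toNat k).1 p.2

lemma VK_def (lam : ℝ) (q : ℕ) (j k : ℤ) (x y : ℝ) : VK lam q j k (x, y) =
  ker ((q : ℝ) ^ (aa lam x + 1)) ((ss q (j - 1 - aa lam x).toNat k).2 : ℝ)
          (ss q (j - 1 - aa lam x).toNat k).1 y := rfl

lemma meas_param (S T : ℤ → ℝ) (K : ℤ → ℤ) :
    Measurable (fun p : ℤ × ℝ => ker (S p.1) (T p.1) (K p.1) p.2) :=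
  measurable_from_prod_countable_right (fun i => measurable_ker (S i) (T i) (K i))

lemma measurable_VK (lam : ℝ) (q : ℕ) (j k : ℤ) : Measurable (VK lam q j k) := by
  have h1 := (meas_param (fun i => (q : ℝ) ^ (i + 1)) (fun i => ((ss q (j - 1 - i).toNat k).2 : ℝ))
    (fun i => (ss q (j - 1 - i).toNat k).1)).comp
    (((measurable_aa lam).comp (measurable_fst (α := ℝ) (β := ℝ))).prodMk measurable_snd)
  have h2 : VK lam q j k = (fun p : ℤ × ℝ => ker ((fun i : ℤ => (q : ℝ) ^ (i + 1)) p.1)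
      ((fun i : ℤ => ((ss q (j - 1 - i).toNat k).2 : ℝ)) p.1)
      ((fun i : ℤ => (ss q (j - 1 - i).toNat k).1) p.1) p.2) ∘
      (fun p : ℝ × ℝ => ((aa lam ∘ Prod.fst) p, p.2)) := by
    funext p
    simp only [VK, Function.comp]
  rw [h2]
  exact h1

lemma measurable_Psi (lam : ℝ) (q : ℕ) : Measurable (Psi lam q) := by
  have h1 := meas_param (fun i => (q : ℝ) ^ (i + 1)) (fun i => ((gr q (-1 - i).toNat).2 : ℝ))
    (fun i => (gr q (-1 - i).toNat).1)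
  have h2 := h1.comp (((measurable_aa lam).comp measurable_fst).prodMk
    (measurable_snd (α := ℝ) (β := ℝ)))
  unfold Psi
  apply Measurable.ite _ h2 measurable_const
  have h3 : MeasurableSet {p : ℝ × ℝ | p.1 ≠ 0} :=
    (measurable_fst (measurableSet_singleton (0 : ℝ))).compl
  have h4 : MeasurableSet {p : ℝ × ℝ | aa lam p.1 ≤ -1} :=
    measurableSet_le ((measurable_aa lam).comp measurable_fst) measurable_const
  exact h3.inter h4

lemma measurable_G (lam : ℝ) (q : ℕ) (j : ℤ) (k : ℤ × ℤ) : Measurable (G lam q j k) := by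
  unfold G
  have h := (measurable_Psi lam q).comp (f := fun p : ℝ × ℝ => (lam ^ (-j) * p.1, (q : ℝ) ^ j * p.2))
    (by fun_prop)
  exact Measurable.mul (by fun_prop) h

lemma ae_good (lam : ℝ) : ∀ᵐ x : ℝ, x ≠ 0 ∧ ∀ j : ℤ, x ≠ -(lam ^ j / 2) := by
  have h1 : ∀ᵐ x : ℝ, x ≠ 0 := by
    rw [ae_iff]; simp
  have h2 : ∀ j : ℤ, ∀ᵐ x : ℝ, x ≠ -(lam ^ j / 2) := by
    intro j
    rw [ae_iff]
    simp
  rw [← ae_all_iff] at h2
  filter_upwards [h1, h2] with x hx hx2 using ⟨hx, hx2⟩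

lemma ker_eq_zero (hl : 1 < lam) {x : ℝ} (hx : x ≠ 0) (j : ℤ) (hx2 : x ≠ -(lam ^ j / 2))
    (h : ¬ aa lam x < j) (k : ℤ) : ker (lam ^ (-j)) (-(1 / 2)) k x = 0 := by
  unfold ker
  rw [if_neg]
  rwa [win_iff hl hx j hx2]

lemma G_eq' (hl : 1 < lam) (hq : 2 ≤ q) (j : ℤ) (k : ℤ × ℤ) {x : ℝ} (y : ℝ)
    (hx : x ≠ 0) (hx2 : x ≠ -(lam ^ j / 2)) :
    G lam q j k (x, y) = ker (lam ^ (-j)) (-(1 / 2)) k.1 x * VK lam q j k.2 (x, y) := by
  rw [G_eq hl hq j k y hx hx2]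
  by_cases h : aa lam x < j
  · rw [if_pos h]; rfl
  · rw [ker_eq_zero hl hx j hx2 h]; simp

lemma lint_VK (hq : 2 ≤ q) (j k : ℤ) (x : ℝ) :
    ∫⁻ y, ‖VK lam q j k (x, y)‖ₑ ^ 2 = 1 := by
  have hq0 : (0 : ℝ) < q := by exact_mod_cast (by omega : 0 < q)
  simp_rw [VK_def]
  exact lint_ker (zpow_pos hq0 _) _ _

lemma lint_G (hl : 1 < lam) (hq : 2 ≤ q) (j : ℤ) (k : ℤ × ℤ) :
    ∫⁻ p : ℝ × ℝ, ‖G lam q j k p‖ₑ ^ 2 = 1 := by
  have h0 : 0 < lam := by linarith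
  rw [Measure.volume_eq_prod, lintegral_prod _
    ((measurable_G lam q j k).enorm.pow_const 2).aemeasurable]
  have h1 : ∀ᵐ x : ℝ, ∫⁻ y, ‖G lam q j k (x, y)‖ₑ ^ 2 = ‖ker (lam ^ (-j)) (-(1 / 2)) k.1 x‖ₑ ^ 2 := by
    filter_upwards [ae_good lam] with x hx
    simp_rw [G_eq' hl hq j k _ hx.1 (hx.2 j), enorm_mul, mul_pow]
    rw [lintegral_const_mul' _ _ (by simp), lint_VK hq, mul_one]
  rw [lintegral_congr_ae h1]
  exact lint_ker (zpow_pos h0 _) _ _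

lemma memLp_G (hl : 1 < lam) (hq : 2 ≤ q) (j : ℤ) (k : ℤ × ℤ) :
    MemLp (G lam q j k) 2 volume := by
  apply memLp_two_of (measurable_G lam q j k).aestronglyMeasurable
  rw [lint_G hl hq]; exact ENNReal.one_ne_top

end four

section five

variable {lam : ℝ} {q : ℕ}

/-- Vertical coefficients. -/
noncomputable def HH (lam : ℝ) (q : ℕ) (f : ℝ × ℝ → ℂ) (j k : ℤ) (x : ℝ) : ℂ :=
  ∫ y, (starRingEnd ℂ) (VK lam q j k (x, y)) * f (x, y)

lemma measurable_HH {f : ℝ × ℝ → ℂ} (hf : Measurable f) (j k : ℤ) :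
    StronglyMeasurable (HH lam q f j k) := by
  unfold HH
  have h : Measurable (fun p : ℝ × ℝ => (starRingEnd ℂ) (VK lam q j k p) * f p) :=
    (Complex.continuous_conj.measurable.comp (measurable_VK lam q j k)).mul hf
  exact h.stronglyMeasurable.integral_prod_right'

lemma ae_slice {f : ℝ × ℝ → ℂ} (hf : Measurable f) (hf2 : ∫⁻ p, ‖f p‖ₑ ^ 2 ≠ ∞) :
    ∀ᵐ x : ℝ, MemLp (fun y => f (x, y)) 2 volume := by
  rw [Measure.volume_eq_prod, lintegral_prod _ (hf.enorm.pow_const 2).aemeasurable] at hf2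
  have h := ae_lt_top (f := fun x : ℝ => ∫⁻ y : ℝ, ‖f (x, y)‖ₑ ^ 2)
    (Measurable.lintegral_prod_right' (f := fun p : ℝ × ℝ => ‖f p‖ₑ ^ 2) (hf.enorm.pow_const 2)) hf2
  filter_upwards [h] with x hx
  exact memLp_two_of (hf.comp measurable_prodMk_left).aestronglyMeasurable hx.ne

lemma sum_HH (hq : 2 ≤ q) (f : ℝ × ℝ → ℂ) (x : ℝ)
    (l : ℕ) (k : ℤ) :
    HH lam q f (aa lam x + 1 + l) k x =
      ∫ y, (starRingEnd ℂ) (ker ((q : ℝ) ^ (aa lam x + 1)) ((sig q hq (l, k)).2 : ℝ)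
        (sig q hq (l, k)).1 y) * f (x, y) := by
  unfold HH
  have e : (aa lam x + 1 + l - 1 - aa lam x).toNat = l := by omega
  simp_rw [VK_def, e, ss_snd, ss_fst, sig_apply]

lemma HH_le (hq : 2 ≤ q) {f : ℝ × ℝ → ℂ} {x : ℝ} (hx : MemLp (fun y => f (x, y)) 2 volume)
    (j : ℤ) (k : ℤ) :
    ‖HH lam q f j k x‖ₑ ^ 2 ≤ ∫⁻ y, ‖f (x, y)‖ₑ ^ 2 := by
  have hq0 : (0 : ℝ) < q := by exact_mod_cast (by omega : 0 < q)
  rw [← parseval_line (zpow_pos hq0 (aa lam x + 1)) hx]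
  refine le_trans (le_of_eq ?_)
    (ENNReal.le_tsum (ss q (j - 1 - aa lam x).toNat k))
  rfl

lemma memLp_HH (hq : 2 ≤ q) {f : ℝ × ℝ → ℂ} (hf : Measurable f) (hf2 : ∫⁻ p, ‖f p‖ₑ ^ 2 ≠ ∞)
    (j k : ℤ) : MemLp (HH lam q f j k) 2 volume := by
  apply memLp_two_of (measurable_HH hf j k).aestronglyMeasurable
  have h1 : ∫⁻ x, ‖HH lam q f j k x‖ₑ ^ 2 ≤ ∫⁻ x, ∫⁻ y, ‖f (x, y)‖ₑ ^ 2 := by
    apply lintegral_mono_ae
    filter_upwards [ae_slice hf hf2] with x hx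
    exact HH_le hq hx j k
  rw [Measure.volume_eq_prod, lintegral_prod _ (hf.enorm.pow_const 2).aemeasurable] at hf2
  exact ne_top_of_le_ne_top hf2 h1

lemma inner_G (hl : 1 < lam) (hq : 2 ≤ q) {f : ℝ × ℝ → ℂ} (hf : Measurable f)
    (hf2 : ∫⁻ p, ‖f p‖ₑ ^ 2 ≠ ∞) (j k1 k2 : ℤ) :
    ∫ p, (starRingEnd ℂ) (G lam q j (k1, k2) p) * f p =
      ∫ x, (starRingEnd ℂ) (ker (lam ^ (-j)) (-(1 / 2)) k1 x) * HH lam q f j k2 x := by
  have hi : Integrable (fun p => (starRingEnd ℂ) (G lam q j (k1, k2) p) * f p) volume := by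
    have h1 : MemLp (fun p => (starRingEnd ℂ) (G lam q j (k1, k2) p)) 2 volume :=
      (memLp_G hl hq j (k1, k2)).star
    exact h1.integrable_mul (memLp_two_of hf.aestronglyMeasurable hf2)
  rw [Measure.volume_eq_prod] at hi ⊢
  rw [integral_prod _ hi]
  apply integral_congr_ae
  filter_upwards [ae_good lam] with x hx
  unfold HH
  rw [← integral_const_mul]
  congr 1
  funext y
  rw [G_eq' hl hq j (k1, k2) y hx.1 (hx.2 j), map_mul, mul_assoc]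

lemma sum_k1 (hl : 1 < lam) (hq : 2 ≤ q) {f : ℝ × ℝ → ℂ} (hf : Measurable f)
    (hf2 : ∫⁻ p, ‖f p‖ₑ ^ 2 ≠ ∞) (j k2 : ℤ) :
    ∑' k1 : ℤ, ‖∫ p, (starRingEnd ℂ) (G lam q j (k1, k2) p) * f p‖ₑ ^ 2 =
      ∫⁻ x, (if aa lam x < j then ‖HH lam q f j k2 x‖ₑ ^ 2 else 0) := by
  have h0 : 0 < lam := by linarith
  simp_rw [inner_G hl hq hf hf2]
  rw [parseval_win (zpow_pos h0 (-j)) (-(1 / 2)) ((memLp_HH hq hf hf2 j k2).restrict _),
    ← lintegral_indicator measurableSet_Ico]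
  apply lintegral_congr_ae
  filter_upwards [ae_good lam] with x hx
  rw [indicator_apply]
  have hw : x ∈ Ico (-(1 / 2) / lam ^ (-j)) ((-(1 / 2) + 1) / lam ^ (-j)) ↔ aa lam x < j := by
    rw [← win_iff hl hx.1 j (hx.2 j), ← win_eq (zpow_pos h0 (-j))]; rfl
  simp only [hw]

lemma tsum_shift (a : ℤ) (T : ℤ → ℝ≥0∞) :
    ∑' j : ℤ, (if a < j then T j else 0) = ∑' l : ℕ, T (a + 1 + l) := by
  have hinj : Function.Injective (fun l : ℕ => a + 1 + (l : ℤ)) := by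
    intro l l' h; simpa using h
  rw [← hinj.tsum_eq (f := fun j : ℤ => if a < j then T j else 0)]
  · congr 1
    funext l
    have : a < a + 1 + (l : ℤ) := by omega
    simp only [this, if_true]
  · intro j hj
    rw [Function.mem_support] at hj
    have : a < j := by
      by_contra h
      exact hj (by simp only [h, if_false])
    exact ⟨(j - a - 1).toNat, by simp only; omega⟩

/-- Parseval identity for the system on the plane. -/
theorem frame (hl : 1 < lam) (hq : 2 ≤ q) {f : ℝ × ℝ → ℂ} (hf : Measurable f)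
    (hf2 : ∫⁻ p, ‖f p‖ₑ ^ 2 ≠ ∞) :
    ∑' jk : ℤ × (ℤ × ℤ), ‖∫ p, (starRingEnd ℂ) (G lam q jk.1 jk.2 p) * f p‖ₑ ^ 2 =
      ∫⁻ p, ‖f p‖ₑ ^ 2 := by
  have hq0 : (0 : ℝ) < q := by exact_mod_cast (by omega : 0 < q)
  have hm : ∀ j k2 : ℤ, Measurable (fun x => if aa lam x < j then ‖HH lam q f j k2 x‖ₑ ^ 2 else 0) := by
    intro j k2
    apply Measurable.ite
    · exact measurableSet_lt (measurable_aa lam) measurable_const
    · exact (measurable_HH hf j k2).measurable.enorm.pow_const 2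
    · exact measurable_const
  rw [ENNReal.tsum_prod']
  have e1 : ∀ j : ℤ, ∑' k : ℤ × ℤ, ‖∫ p, (starRingEnd ℂ) (G lam q j k p) * f p‖ₑ ^ 2 =
      ∑' k2 : ℤ, ∫⁻ x, (if aa lam x < j then ‖HH lam q f j k2 x‖ₑ ^ 2 else 0) := by
    intro j
    rw [ENNReal.tsum_prod', ENNReal.tsum_comm]
    congr 1
    funext k2
    exact sum_k1 hl hq hf hf2 j k2
  simp only [e1]
  have e2 : ∀ j : ℤ, ∑' k2 : ℤ, ∫⁻ x, (if aa lam x < j then ‖HH lam q f j k2 x‖ₑ ^ 2 else 0) =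
      ∫⁻ x, ∑' k2 : ℤ, (if aa lam x < j then ‖HH lam q f j k2 x‖ₑ ^ 2 else 0) := by
    intro j
    rw [lintegral_tsum]
    intro k2
    exact (hm j k2).aemeasurable
  simp only [e2]
  rw [← lintegral_tsum (fun j => (Measurable.tsum (fun k2 => hm j k2)).aemeasurable)]
  rw [Measure.volume_eq_prod, lintegral_prod _ (hf.enorm.pow_const 2).aemeasurable]
  apply lintegral_congr_ae
  filter_upwards [ae_slice hf hf2] with x hx
  have e3 : ∀ j : ℤ, ∑' k2 : ℤ, (if aa lam x < j then ‖HH lam q f j k2 x‖ₑ ^ 2 else 0) =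
      if aa lam x < j then ∑' k2 : ℤ, ‖HH lam q f j k2 x‖ₑ ^ 2 else 0 := by
    intro j
    split_ifs <;> simp
  simp only [e3]
  rw [tsum_shift (aa lam x) (fun j => ∑' k2 : ℤ, ‖HH lam q f j k2 x‖ₑ ^ 2)]
  simp_rw [sum_HH hq f x]
  rw [← ENNReal.tsum_prod (f := fun (l : ℕ) (k : ℤ) =>
    ‖∫ y, (starRingEnd ℂ) (ker ((q : ℝ) ^ (aa lam x + 1)) ((sig q hq (l, k)).2 : ℝ)
        (sig q hq (l, k)).1 y) * f (x, y)‖ₑ ^ 2)]
  rw [← parseval_line (zpow_pos hq0 (aa lam x + 1)) hx]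
  exact (sig q hq).tsum_eq (fun p : ℤ × ℤ =>
    ‖∫ y, (starRingEnd ℂ) (ker ((q : ℝ) ^ (aa lam x + 1)) (p.2 : ℝ) p.1 y) * f (x, y)‖ₑ ^ 2)

end five

section six

variable {lam : ℝ} {q : ℕ}

lemma aa_of_mem (hl : 1 < lam) {x : ℝ} (h1 : 1 / (2 * lam) ≤ x) (h2 : x < 1 / 2) :
    aa lam x = -1 := by
  have h0 : 0 < lam := by linarith
  have hx : 0 < x := lt_of_lt_of_le (by positivity) h1
  unfold aa
  rw [Int.floor_eq_iff, abs_of_pos hx]
  have hb1 : 1 ≤ lam * (2 * x) := by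
    rw [div_le_iff₀ (by positivity)] at h1
    linarith
  constructor
  · rw [Real.le_logb_iff_rpow_le hl (by positivity)]
    push_cast
    rw [Real.rpow_neg_one, inv_le_iff_one_le_mul₀ h0]
    linarith
  · push_cast
    rw [Real.logb_lt_iff_lt_rpow hl (by positivity)]
    norm_num
    linarith

lemma enorm_Psi (hl : 1 < lam) (hq : 2 ≤ q) {x : ℝ} (y : ℝ) (h1 : 1 / (2 * lam) ≤ x)
    (h2 : x < 1 / 2) (l : ℕ) :
    ‖Psi lam q (lam ^ (-(l : ℤ)) * x, (q : ℝ) ^ (l : ℤ) * y)‖ₑ ^ 2 =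
      if (gr q l).2 = ⌊y⌋ then ENNReal.ofReal ((q : ℝ) ^ (-(l : ℤ))) else 0 := by
  have h0 : 0 < lam := by linarith
  have hq0 : (0 : ℝ) < q := by exact_mod_cast (by omega : 0 < q)
  have hx : x ≠ 0 := (lt_of_lt_of_le (by positivity) h1).ne'
  have hne : lam ^ (-(l : ℤ)) * x ≠ 0 := mul_ne_zero (zpow_pos h0 _).ne' hx
  unfold Psi
  have e1 : aa lam (lam ^ (-(l : ℤ)) * x) = -1 - l := by
    rw [aa_scale hl hx, aa_of_mem hl h1 h2]; ring
  simp only [e1]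
  have e2 : (-1 - (-1 - (l : ℤ))).toNat = l := by omega
  have e3 : (-1 - (l : ℤ) + 1) = -(l : ℤ) := by ring
  rw [e2, e3, if_pos ⟨hne, by omega⟩, indic_ker (zpow_pos hq0 _), indicator_apply]
  have hw : ((q : ℝ) ^ (l : ℤ) * y ∈ Ico (((gr q l).2 : ℝ) / (q : ℝ) ^ (-(l : ℤ)))
      ((((gr q l).2 : ℝ) + 1) / (q : ℝ) ^ (-(l : ℤ)))) ↔ (gr q l).2 = ⌊y⌋ := by
    rw [← win_eq (zpow_pos hq0 _)]
    simp only [mem_ofPred_eq]
    rw [← mul_assoc, ← zpow_add₀ hq0.ne', neg_add_cancel, zpow_zero, one_mul, eq_comm,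
      Int.floor_eq_iff]
  simp only [hw]

/-- The value of the Calderon sum on the central strip. -/
lemma cal_sum (hl : 1 < lam) (hq : 2 ≤ q) {x : ℝ} (y : ℝ) (h1 : 1 / (2 * lam) ≤ x)
    (h2 : x < 1 / 2) :
    ∑' j : ℤ, ‖Psi lam q (lam ^ j * x, (q : ℝ) ^ (-j) * y)‖ₑ ^ 2 =
      ∑' l : ℕ, if (gr q l).2 = ⌊y⌋ then ENNReal.ofReal ((q : ℝ) ^ (-(l : ℤ))) else 0 := by
  have h0 : 0 < lam := by linarith
  have hx : x ≠ 0 := (lt_of_lt_of_le (by positivity) h1).ne'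
  rw [← (Equiv.neg ℤ).tsum_eq]
  have e1 : ∀ j : ℤ, ‖Psi lam q (lam ^ (Equiv.neg ℤ j) * x, (q : ℝ) ^ (-(Equiv.neg ℤ j)) * y)‖ₑ ^ 2 =
      if (-1) < j then ‖Psi lam q (lam ^ (-j) * x, (q : ℝ) ^ j * y)‖ₑ ^ 2 else 0 := by
    intro j
    simp only [Equiv.neg_apply, neg_neg]
    split_ifs with h
    · rfl
    · unfold Psi
      rw [if_neg]
      · simp
      · simp only
        rw [aa_scale hl hx, aa_of_mem hl h1 h2]
        omega
  simp only [e1]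
  rw [tsum_shift (-1) (fun j => ‖Psi lam q (lam ^ (-j) * x, (q : ℝ) ^ j * y)‖ₑ ^ 2)]
  congr 1
  funext l
  have e2 : (-1 : ℤ) + 1 + l = l := by ring
  rw [e2]
  exact enorm_Psi hl hq y h1 h2 l

/-- Calderon's formula fails for the function `Psi`. -/
theorem not_calderon (hl : 1 < lam) (hq : 2 ≤ q) :
    ¬ ∀ᵐ p : ℝ × ℝ, ∑' j : ℤ, ‖Psi lam q (lam ^ j * p.1, (q : ℝ) ^ (-j) * p.2)‖ₑ ^ 2 = 1 := by
  intro hae
  have h0 : 0 < lam := by linarith
  have hq1 : (1 : ℝ) < q := by exact_mod_cast (by omega : 1 < q)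
  have h3 : 1 / (2 * lam) < 1 / 2 := by
    apply one_div_lt_one_div_of_lt <;> linarith
  have key : ∀ n : ℤ, ∑' l : ℕ, (if (gr q l).2 = n then ENNReal.ofReal ((q : ℝ) ^ (-(l : ℤ))) else 0) = 1 := by
    intro n
    have hpos : (volume : Measure (ℝ × ℝ)) (Ico (1 / (2 * lam)) (1 / 2) ×ˢ Ico (n : ℝ) (n + 1)) ≠ 0 := by
      rw [Measure.volume_eq_prod, Measure.prod_prod, Real.volume_Ico, Real.volume_Ico]
      apply mul_ne_zero
      · rw [Ne, ENNReal.ofReal_eq_zero]; linarith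
      · rw [Ne, ENNReal.ofReal_eq_zero]; linarith
    obtain ⟨p, hp, hp2⟩ := (frequently_ae_mem_iff.2 hpos).and_eventually hae |>.exists
    have h4 := cal_sum (q := q) hl hq p.2 hp.1.1 hp.1.2
    rw [hp2] at h4
    have h5 : ⌊p.2⌋ = n := Int.floor_eq_iff.2 hp.2
    rw [h5] at h4
    exact h4.symm
  have h6 : ∑' n : ℤ, ∑' l : ℕ, (if (gr q l).2 = n then ENNReal.ofReal ((q : ℝ) ^ (-(l : ℤ))) else 0) = ∞ := by
    simp only [key]
    exact ENNReal.tsum_const_eq_top_of_ne_zero one_ne_zero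
  rw [ENNReal.tsum_comm] at h6
  have h7 : ∀ l : ℕ, ∑' n : ℤ, (if (gr q l).2 = n then ENNReal.ofReal ((q : ℝ) ^ (-(l : ℤ))) else 0) =
      (ENNReal.ofReal ((q : ℝ)⁻¹)) ^ l := by
    intro l
    rw [tsum_eq_single (gr q l).2]
    · rw [if_pos rfl, zpow_neg, zpow_natCast, ← inv_pow, ENNReal.ofReal_pow (by positivity)]
    · intro n hn
      rw [if_neg hn.symm]
  simp only [h7] at h6
  rw [ENNReal.tsum_geometric, ENNReal.inv_eq_top, tsub_eq_zero_iff_le] at h6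
  have h8 : ENNReal.ofReal ((q : ℝ)⁻¹) < 1 := by
    rw [ENNReal.ofReal_lt_one]
    exact inv_lt_one_of_one_lt₀ hq1
  exact absurd h6 (not_le.2 h8)

end six

end Pool.Agent.Helper537.Cal
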