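import Pool.Agent.Helper537.CalDefs

/-!
# Existence of orthonormal wavelets and of MSF wavelets: definitions
-/

set_option autoImplicit false
open MeasureTheory
open scoped FourierTransform ENNReal

namespace Pool.Agent.Helper537.Calderon

variable {V : Type} [NormedAddCommGroup V] [InnerProductSpace ℝ V] [FiniteDimensional ℝ V]
  [MeasurableSpace V] [BorelSpace V]

/-- `ψ` is minimally supported in frequency: `|𝓕 ψ| = 1_W` almost everywhere, for a measurable
set `W`. -/
def IsMSF (ψ : Lp ℂ 2 (volume : Measure V)) : Prop :=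
  ∃ W : Set V, MeasurableSet W ∧
    ∀ᵐ ξ : V, ‖(𝓕 ψ : Lp ℂ 2 (volume : Measure V)) ξ‖ = W.indicator (fun _ => 1) ξ

/-- There is an orthonormal wavelet (with one generator) associated with `(A, Γ)`. -/
def HasOrthonormalWavelet (A : V ≃L[ℝ] V) (Γ : Submodule ℤ V) : Prop :=
  ∃ ψ : Lp ℂ 2 (volume : Measure V), IsOrthonormalWavelet A Γ ψ

/-- There is an orthonormal MSF wavelet (with one generator) associated with `(A, Γ)`. -/
def HasMSFWavelet (A : V ≃L[ℝ] V) (Γ : Submodule ℤ V) : Prop :=
  ∃ ψ : Lp ℂ 2 (volume : Measure V), IsOrthonormalWavelet A Γ ψ ∧ IsMSF ψ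

end Pool.Agent.Helper537.Calderon
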