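import Pool.Agent.Helper537.CalFinal
import Pool.Agent.Helper537.MsfDefs

set_option autoImplicit false
open MeasureTheory Set
open scoped FourierTransform ENNReal

namespace Pool.Agent.Helper537.Calderon
open Pool.Agent.Helper537.Cal Pool.Agent.Helper537.FT

section strip

lemma lintegral_scale {c : ℝ} (hc : 0 < c) (g : ℝ → ℝ≥0∞) :
    ∫⁻ y, g (c * y) = ENNReal.ofReal c⁻¹ * ∫⁻ y, g y := by
  have he : MeasurableEmbedding (fun y : ℝ => c * y) :=
    (Homeomorph.mulLeft₀ c hc.ne').measurableEmbedding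
  rw [← he.lintegral_map, Real.map_volume_mul_left hc.ne', lintegral_smul_measure,
    abs_of_pos (inv_pos.2 hc)]
  rfl

lemma ae_scale {c : ℝ} (hc : 0 < c) {p : ℝ → Prop} (hp : ∀ᵐ x : ℝ, p x) :
    ∀ᵐ x : ℝ, p (c * x) := by
  have hq : Measure.QuasiMeasurePreserving (fun y : ℝ => c * y) volume volume := by
    refine ⟨by fun_prop, ?_⟩
    rw [Real.map_volume_mul_left hc.ne']
    exact Measure.smul_absolutelyContinuous
  exact hq.ae hp

lemma one_scale {a : ℝ} (ha : 1 < a) {u : ℝ} {j j' : ℤ}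
    (h : a ^ j * u ∈ Ico (1 / (2 * a)) (1 / 2)) (h' : a ^ j' * u ∈ Ico (1 / (2 * a)) (1 / 2)) :
    j = j' := by
  have ha0 : 0 < a := by linarith
  have key : ∀ {j j' : ℤ}, a ^ j * u ∈ Ico (1 / (2 * a)) (1 / 2) →
      a ^ j' * u ∈ Ico (1 / (2 * a)) (1 / 2) → ¬ j < j' := by
    intro j j' h h' hlt
    have h1 : a * (a ^ j * u) ≤ a ^ j' * u := by
      have hu : 0 ≤ u := by
        have h2 : 0 < a ^ j * u := lt_of_lt_of_le (by positivity) h.1
        exact (pos_of_mul_pos_right h2 (zpow_pos ha0 j).le).le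
      have h3 : a * a ^ j ≤ a ^ j' := by
        rw [mul_comm, ← zpow_add_one₀ ha0.ne']
        exact zpow_le_zpow_right₀ ha.le (by omega)
      nlinarith
    have h4 : 1 / 2 ≤ a * (a ^ j * u) := by
      have h5 := h.1
      rw [div_le_iff₀ (by positivity)] at h5
      linarith
    linarith [h'.2]
  have h1 := key h h'
  have h2 := key h' h
  omega

/-- Sums over dilates, on a strip. -/
lemma strip_finite {a b : ℝ} (ha : 1 < a) (hb : 1 < b) (hab : b ≤ a) {F : ℝ × ℝ → ℂ}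
    (hF : Measurable F)
    (hΦ : ∀ᵐ x : ℝ, x ∈ Ico (-(1 / 2) : ℝ) (1 / 2) → ∫⁻ y, ‖F (x, y)‖ₑ ^ 2 ≤ 1)
    (h1 : ∫⁻ p, ‖F p‖ₑ ^ 2 ≠ ∞) :
    ∫⁻ x in Ico (1 / (2 * a)) (1 / 2), ∫⁻ y, ∑' j : ℤ, ‖F (a ^ (-j) * x, b ^ j * y)‖ₑ ^ 2 ≠ ∞ := by
  have ha0 : 0 < a := by linarith
  have hb0 : 0 < b := by linarith
  set Φ : ℝ → ℝ≥0∞ := fun x => ∫⁻ y, ‖F (x, y)‖ₑ ^ 2 with hΦdef
  have hΦm : Measurable Φ :=
    Measurable.lintegral_prod_right' (f := fun p : ℝ × ℝ => ‖F p‖ₑ ^ 2) (hF.enorm.pow_const 2)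
  have hΦi : ∫⁻ x, Φ x ≠ ∞ := by
    rw [Measure.volume_eq_prod, lintegral_prod _ (hF.enorm.pow_const 2).aemeasurable] at h1
    exact h1
  have hmj : ∀ j : ℤ, Measurable (fun p : ℝ × ℝ => ‖F (a ^ (-j) * p.1, b ^ j * p.2)‖ₑ ^ 2) := by
    intro j
    exact (hF.comp (by fun_prop : Measurable (fun p : ℝ × ℝ =>
      (a ^ (-j) * p.1, b ^ j * p.2)))).enorm.pow_const 2
  set A0 : Set ℝ := Ico (1 / (2 * a)) (1 / 2) with hA0
  have hA0m : MeasurableSet A0 := measurableSet_Ico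
  have e1 : ∫⁻ x in A0, ∫⁻ y, ∑' j : ℤ, ‖F (a ^ (-j) * x, b ^ j * y)‖ₑ ^ 2 =
      ∑' j : ℤ, ∫⁻ x in A0, ENNReal.ofReal (b ^ (-j)) * Φ (a ^ (-j) * x) := by
    rw [← lintegral_tsum]
    · apply lintegral_congr
      intro x
      rw [lintegral_tsum]
      · congr 1
        funext j
        rw [lintegral_scale (zpow_pos hb0 j) (fun y => ‖F (a ^ (-j) * x, y)‖ₑ ^ 2), ← zpow_neg b j]
      · intro j
        exact ((hmj j).comp measurable_prodMk_left).aemeasurable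
    · intro j
      exact ((hΦm.comp (by fun_prop : Measurable (fun x : ℝ => a ^ (-j) * x))).const_mul _).aemeasurable
  rw [e1]
  have e2 : ∀ j : ℤ, ∫⁻ x in A0, ENNReal.ofReal (b ^ (-j)) * Φ (a ^ (-j) * x) ≤
      (if -1 < j then ENNReal.ofReal (b ^ (-j)) else 0) +
        ∫⁻ u, A0.indicator (fun _ => 1) (a ^ j * u) * Φ u := by
    intro j
    by_cases hj : -1 < j
    · rw [if_pos hj]
      refine le_trans ?_ le_self_add
      have h2 : ∀ᵐ x : ℝ, x ∈ A0 → Φ (a ^ (-j) * x) ≤ 1 := by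
        filter_upwards [ae_scale (zpow_pos ha0 (-j)) hΦ] with x hx hx2
        apply hx
        have h3 : 0 < a ^ (-j) := zpow_pos ha0 _
        have h4 : a ^ (-j) ≤ 1 := zpow_le_one_of_nonpos₀ ha.le (by omega)
        have h5 : 0 < x := lt_of_lt_of_le (by positivity) hx2.1
        constructor
        · nlinarith
        · have := hx2.2
          nlinarith
      calc ∫⁻ x in A0, ENNReal.ofReal (b ^ (-j)) * Φ (a ^ (-j) * x)
          ≤ ∫⁻ x in A0, ENNReal.ofReal (b ^ (-j)) := by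
            apply lintegral_mono_ae
            refine (ae_restrict_iff' hA0m).2 ?_
            filter_upwards [h2] with x hx hx2
            calc _ ≤ ENNReal.ofReal (b ^ (-j)) * 1 := by gcongr; exact hx hx2
              _ = _ := mul_one _
        _ = ENNReal.ofReal (b ^ (-j)) * volume A0 := by
            rw [lintegral_const, Measure.restrict_apply_univ]
        _ ≤ ENNReal.ofReal (b ^ (-j)) * 1 := by
            gcongr
            rw [hA0, Real.volume_Ico, ENNReal.ofReal_le_one]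
            have : 0 < 1 / (2 * a) := by positivity
            linarith
        _ = _ := mul_one _
    · rw [if_neg hj, zero_add, lintegral_const_mul' _ _ ENNReal.ofReal_ne_top]
      have h3 : ∫⁻ x in A0, Φ (a ^ (-j) * x) =
          ENNReal.ofReal (a ^ j) * ∫⁻ u, A0.indicator (fun _ => 1) (a ^ j * u) * Φ u := by
        rw [← lintegral_indicator hA0m]
        have h4 := lintegral_scale (zpow_pos ha0 (-j))
          (fun u => A0.indicator (fun _ => (1 : ℝ≥0∞)) (a ^ j * u) * Φ u)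
        rw [← zpow_neg, neg_neg] at h4
        rw [← h4]
        apply lintegral_congr
        intro x
        rw [← mul_assoc, ← zpow_add₀ ha0.ne', add_neg_cancel, zpow_zero, one_mul]
        by_cases hx : x ∈ A0
        · rw [indicator_of_mem hx, indicator_of_mem hx, one_mul]
        · rw [indicator_of_notMem hx, indicator_of_notMem hx, zero_mul]
      rw [h3, ← mul_assoc, ← ENNReal.ofReal_mul (zpow_pos hb0 _).le]
      have h5 : b ^ (-j) * a ^ j ≤ 1 := by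
        have h6 : b ^ (-j) * a ^ j = (b / a) ^ (-j) := by
          rw [div_zpow, zpow_neg a j, div_inv_eq_mul]
        rw [h6]
        obtain ⟨n, hn⟩ : ∃ n : ℕ, -j = n := ⟨(-j).toNat, by omega⟩
        rw [hn, zpow_natCast]
        apply pow_le_one₀ (by positivity)
        rw [div_le_one ha0]
        exact hab
      calc ENNReal.ofReal (b ^ (-j) * a ^ j) * ∫⁻ u, A0.indicator (fun _ => 1) (a ^ j * u) * Φ u
          ≤ 1 * ∫⁻ u, A0.indicator (fun _ => 1) (a ^ j * u) * Φ u := by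
            gcongr
            rw [ENNReal.ofReal_le_one]
            exact h5
        _ = _ := one_mul _
  have e3 : ∑' j : ℤ, ∫⁻ u, A0.indicator (fun _ => (1 : ℝ≥0∞)) (a ^ j * u) * Φ u ≤ ∫⁻ u, Φ u := by
    rw [← lintegral_tsum]
    · apply lintegral_mono
      intro u
      beta_reduce
      rw [ENNReal.tsum_mul_right]
      have h6 : ∑' j : ℤ, A0.indicator (fun _ => (1 : ℝ≥0∞)) (a ^ j * u) ≤ 1 := by
        by_cases h : ∃ j : ℤ, a ^ j * u ∈ A0
        · obtain ⟨j0, hj0⟩ := h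
          rw [tsum_eq_single j0]
          · rw [indicator_of_mem hj0]
          · intro j hj
            apply indicator_of_notMem
            intro h
            exact hj (one_scale ha h hj0)
        · push Not at h
          simp only [indicator_of_notMem (h _), tsum_zero]
          exact zero_le_one
      calc _ ≤ 1 * Φ u := by gcongr
        _ = Φ u := one_mul _
    · intro j
      have h7 : Measurable (A0.indicator (fun _ => (1 : ℝ≥0∞))) := measurable_const.indicator hA0m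
      exact ((h7.comp (by fun_prop : Measurable (fun u : ℝ => a ^ j * u))).mul hΦm).aemeasurable
  have e4 : ∑' j : ℤ, (if -1 < j then ENNReal.ofReal (b ^ (-j)) else 0) ≠ ∞ := by
    rw [tsum_shift (-1) (fun j => ENNReal.ofReal (b ^ (-j)))]
    have h8 : ∀ l : ℕ, ENNReal.ofReal (b ^ (-(-1 + 1 + (l : ℤ)))) = (ENNReal.ofReal b⁻¹) ^ l := by
      intro l
      rw [← ENNReal.ofReal_pow (by positivity)]
      congr 1
      rw [inv_pow, ← zpow_natCast, ← zpow_neg]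
      congr 1
      ring
    simp only [h8]
    rw [ENNReal.tsum_geometric, Ne, ENNReal.inv_eq_top, tsub_eq_zero_iff_le, not_le,
      ENNReal.ofReal_lt_one]
    exact inv_lt_one_of_one_lt₀ hb
  refine ne_top_of_le_ne_top (ENNReal.add_ne_top.2 ⟨e4, hΦi⟩) ?_
  calc _ ≤ ∑' j : ℤ, ((if -1 < j then ENNReal.ofReal (b ^ (-j)) else 0) +
        ∫⁻ u, A0.indicator (fun _ => 1) (a ^ j * u) * Φ u) := ENNReal.tsum_le_tsum e2
    _ = _ + _ := ENNReal.tsum_add
    _ ≤ _ := by gcongr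

/-- Hence the sums over dilates cannot be at least one almost everywhere. -/
lemma not_cover {a b : ℝ} (ha : 1 < a) (hb : 1 < b) (hab : b ≤ a) {F : ℝ × ℝ → ℂ}
    (hF : Measurable F)
    (hΦ : ∀ᵐ x : ℝ, x ∈ Ico (-(1 / 2) : ℝ) (1 / 2) → ∫⁻ y, ‖F (x, y)‖ₑ ^ 2 ≤ 1)
    (h1 : ∫⁻ p, ‖F p‖ₑ ^ 2 ≠ ∞) :
    ¬ ∀ᵐ p : ℝ × ℝ, 1 ≤ ∑' j : ℤ, ‖F (a ^ (-j) * p.1, b ^ j * p.2)‖ₑ ^ 2 := by
  intro hae
  apply strip_finite ha hb hab hF hΦ h1
  rw [Measure.volume_eq_prod] at hae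
  have h2 := Measure.ae_ae_of_ae_prod hae
  have h3 : ∀ᵐ x : ℝ, ∫⁻ y : ℝ, ∑' j : ℤ, ‖F (a ^ (-j) * x, b ^ j * y)‖ₑ ^ 2 = ∞ := by
    filter_upwards [h2] with x hx
    rw [eq_top_iff]
    calc ∞ = ∫⁻ y : ℝ, 1 := by simp
      _ ≤ _ := lintegral_mono_ae hx
  rw [setLIntegral_congr_fun_ae measurableSet_Ico (h3.mono fun x hx _ => hx)]
  rw [lintegral_const, Measure.restrict_apply_univ, Real.volume_Ico, ENNReal.top_mul]
  rw [Ne, ENNReal.ofReal_eq_zero, not_le]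
  have : 1 / (2 * a) < 1 / 2 := by
    apply one_div_lt_one_div_of_lt <;> linarith
  linarith

end strip


section gen

variable {lam : ℝ} {q : ℕ}

lemma fourier_gen (hl : 1 < lam) (hq : 2 ≤ q) (j : ℤ) (k : E 2) (hB1 : lam ^ (-j) ≠ 0)
    (hB2 : (q : ℝ) ^ j ≠ 0) (ψ : L2E) :
    𝓕 (wco ((AA hl hq) ^ j) k (wT _) (wt_wT _) ψ) =
      wco (dg (lam ^ (-j)) ((q : ℝ) ^ j) hB1 hB2) 0 (wF _ k) (wt_wF _ _) (𝓕 ψ) := by
  have h0 : 0 < lam := by linarith
  have hq0 : (0 : ℝ) < q := by exact_mod_cast (by omega : 0 < q)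
  have hA1 : lam ^ j ≠ 0 := (zpow_pos h0 j).ne'
  have hA2 : (1 / (q : ℝ)) ^ j ≠ 0 := (zpow_pos (by positivity) j).ne'
  have e0 : (AA hl hq) ^ j = dg (lam ^ j) ((1 / q) ^ j) hA1 hA2 := AA_zpow hl hq j hA1 hA2
  have e1 : ∀ x ξ : E 2, inner ℝ (((AA hl hq) ^ j) x) (dg (lam ^ (-j)) ((q : ℝ) ^ j) hB1 hB2 ξ) =
      inner ℝ x ξ := by
    intro x ξ
    rw [e0, inner_two, inner_two, dg_zero, dg_one, dg_zero, dg_one]
    have e2 : lam ^ j * lam ^ (-j) = 1 := by rw [← zpow_add₀ h0.ne']; simp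
    have e3 : (1 / (q : ℝ)) ^ j * (q : ℝ) ^ j = 1 := by
      rw [← mul_zpow, one_div, inv_mul_cancel₀ hq0.ne', one_zpow]
    linear_combination (x 0 * ξ 0) * e2 + (x 1 * ξ 1) * e3
  have e2 : adet (dg (lam ^ (-j)) ((q : ℝ) ^ j) hB1 hB2) = (adet ((AA hl hq) ^ j))⁻¹ := by
    rw [e0, adet_dg, adet_dg, ← abs_inv, mul_inv, zpow_neg, one_div, inv_zpow, inv_inv]
  exact fourier_wco _ (dg (lam ^ (-j)) ((q : ℝ) ^ j) hB1 hB2) k e1 e2 ψ

lemma wav_ae_wco (hl : 1 < lam) (hq : 2 ≤ q) (j : ℤ) (k : E 2) (ψ : L2E) :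
    (wco ((AA hl hq) ^ j) k (wT _) (wt_wT _) ψ : E 2 → ℂ) =ᵐ[volume] wav (AA hl hq) ψ j k := by
  have h0 : 0 < lam := by linarith
  have hq0 : (0 : ℝ) < q := by exact_mod_cast (by omega : 0 < q)
  filter_upwards [coeFn_wco ((AA hl hq) ^ j) k (wT _) (wt_wT _) ψ] with x hx
  rw [hx]
  unfold wav wT
  congr 2
  have hA1 : lam ^ j ≠ 0 := (zpow_pos h0 j).ne'
  have hA2 : (1 / (q : ℝ)) ^ j ≠ 0 := (zpow_pos (by positivity) j).ne'
  rw [AA_zpow hl hq j hA1 hA2, adet_dg, ← mul_zpow, abs_zpow]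
  unfold AA
  rw [absDet_dg, Real.sqrt_eq_rpow, ← Real.rpow_intCast, ← Real.rpow_mul (abs_nonneg _)]
  congr 1
  ring

/-- The Fourier transforms of the elements of a wavelet basis. -/
lemma basis_ae (hl : 1 < lam) (hq : 2 ≤ q) {ψ : L2E} {F : ℝ × ℝ → ℂ}
    (hF : (𝓕 ψ : L2E) =ᵐ[volume] fun ξ : E 2 => F (ce ξ))
    (u : L2E) (j : ℤ) (m n : ℤ)
    (hu : (u : E 2 → ℂ) =ᵐ[volume] wav (AA hl hq) ψ j (lat (m, n))) :
    (𝓕 u : L2E) =ᵐ[volume] fun ξ : E 2 =>
      (fun p : ℝ × ℝ => ((Real.sqrt (lam ^ (-j) * (q : ℝ) ^ j) : ℝ) : ℂ) *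
        Complex.exp (-(2 * Real.pi * Complex.I *
          ((m * (lam ^ (-j) * p.1) + n * ((q : ℝ) ^ j * p.2) : ℝ) : ℂ))) *
        F (lam ^ (-j) * p.1, (q : ℝ) ^ j * p.2)) (ce ξ) := by
  have h0 : 0 < lam := by linarith
  have hq0 : (0 : ℝ) < q := by exact_mod_cast (by omega : 0 < q)
  have hB1 : lam ^ (-j) ≠ 0 := (zpow_pos h0 _).ne'
  have hB2 : (q : ℝ) ^ j ≠ 0 := (zpow_pos hq0 j).ne'
  have e1 : u = wco ((AA hl hq) ^ j) (lat (m, n)) (wT _) (wt_wT _) ψ := by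
    apply Lp.ext
    exact hu.trans (wav_ae_wco hl hq j _ ψ).symm
  rw [e1, fourier_gen hl hq j _ hB1 hB2 ψ]
  have h1 := coeFn_wco (dg (lam ^ (-j)) ((q : ℝ) ^ j) hB1 hB2) 0
    (wF (dg (lam ^ (-j)) ((q : ℝ) ^ j) hB1 hB2) (lat (m, n))) (wt_wF _ _) (𝓕 ψ)
  have h2 := (qmp_aff (dg (lam ^ (-j)) ((q : ℝ) ^ j) hB1 hB2) 0).ae hF
  filter_upwards [h1, h2] with x hx1 hx2
  rw [hx1, hx2]
  simp only [sub_zero]
  rw [ce_apply, ce_apply, dg_zero, dg_one]
  unfold wF
  have hm : lat (m, n) 0 = m := by simp [lat]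
  have hn : lat (m, n) 1 = n := by simp [lat]
  rw [adet_dg, inner_two, dg_zero, dg_one, hm, hn]
  have e4 : |lam ^ (-j) * (q : ℝ) ^ j| = lam ^ (-j) * (q : ℝ) ^ j := by
    rw [abs_of_pos]; positivity
  rw [e4]
  congr 3
  push_cast
  ring

end gen

section slices

/-- A bound for the mass of the slices, from a Bessel inequality for pure modulations in the
first variable. -/
lemma slice_le {F : ℝ × ℝ → ℂ} (hF : Measurable F) (h1 : ∫⁻ p, ‖F p‖ₑ ^ 2 ≠ ∞)
    (hB : ∀ g : ℝ × ℝ → ℂ, Measurable g → ∫⁻ p, ‖g p‖ₑ ^ 2 ≠ ∞ →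
      ∑' m : ℤ, ‖∫ p : ℝ × ℝ, (starRingEnd ℂ) (Complex.exp (-(2 * Real.pi * Complex.I *
          ((m * p.1 : ℝ) : ℂ))) * F p) * g p‖ₑ ^ 2 ≤ ∫⁻ p, ‖g p‖ₑ ^ 2) :
    ∀ᵐ x : ℝ, x ∈ Ico (-(1 / 2) : ℝ) (1 / 2) → ∫⁻ y, ‖F (x, y)‖ₑ ^ 2 ≤ 1 := by
  set Φ : ℝ → ℝ≥0∞ := fun x => ∫⁻ y, ‖F (x, y)‖ₑ ^ 2 with hΦdef
  have hΦm : Measurable Φ :=
    Measurable.lintegral_prod_right' (f := fun p : ℝ × ℝ => ‖F p‖ₑ ^ 2) (hF.enorm.pow_const 2)
  have hΦi : ∫⁻ x, Φ x ≠ ∞ := by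
    have h2 := h1
    rw [Measure.volume_eq_prod, lintegral_prod _ (hF.enorm.pow_const 2).aemeasurable] at h2
    exact h2
  -- the set where the claim fails, with a bound
  have key : ∀ N : ℕ, volume {x : ℝ | x ∈ Ico (-(1 / 2) : ℝ) (1 / 2) ∧ 1 < Φ x ∧ Φ x ≤ N} = 0 := by
    intro N
    set X : Set ℝ := {x : ℝ | x ∈ Ico (-(1 / 2) : ℝ) (1 / 2) ∧ 1 < Φ x ∧ Φ x ≤ N} with hX
    have hXm : MeasurableSet X := by
      apply measurableSet_Ico.inter
      exact (measurableSet_lt measurable_const hΦm).inter (measurableSet_le hΦm measurable_const)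
    set g : ℝ × ℝ → ℂ := fun p => X.indicator (fun _ => (1 : ℂ)) p.1 * F p with hg
    have hind : Measurable (X.indicator (fun _ => (1 : ℂ))) := measurable_const.indicator hXm
    have hgm : Measurable g := (hind.comp measurable_fst).mul hF
    have hg2 : ∫⁻ p, ‖g p‖ₑ ^ 2 = ∫⁻ x in X, Φ x := by
      rw [Measure.volume_eq_prod, lintegral_prod _ (hgm.enorm.pow_const 2).aemeasurable,
        ← lintegral_indicator hXm]
      apply lintegral_congr
      intro x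
      by_cases hx : x ∈ X
      · rw [indicator_of_mem hx]
        simp only [hg, indicator_of_mem hx, one_mul]
        rfl
      · rw [indicator_of_notMem hx]
        simp only [hg, indicator_of_notMem hx, zero_mul, enorm_zero]
        simp
    have hgf : ∫⁻ p, ‖g p‖ₑ ^ 2 ≠ ∞ := by
      rw [hg2]
      exact ne_top_of_le_ne_top hΦi (setLIntegral_le_lintegral _ _)
    -- the profile
    set P : ℝ → ℂ := fun x => X.indicator (fun x => ((Φ x).toReal : ℂ)) x with hP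
    have hPm : Measurable P :=
      (Complex.measurable_ofReal.comp hΦm.ennreal_toReal).indicator hXm
    have hPe : ∀ x, ‖P x‖ₑ ^ 2 = X.indicator (fun x => (Φ x) ^ 2) x := by
      intro x
      by_cases hx : x ∈ X
      · simp only [hP, indicator_of_mem hx]
        have hfin : Φ x ≠ ∞ := ne_top_of_le_ne_top (ENNReal.natCast_ne_top N) hx.2.2
        rw [← ofReal_norm, Complex.norm_real, Real.norm_eq_abs, abs_of_nonneg ENNReal.toReal_nonneg,
          ENNReal.ofReal_toReal hfin]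
      · simp only [hP, indicator_of_notMem hx]
        simp
    have hX1 : volume X ≠ ∞ := by
      refine ne_top_of_le_ne_top ?_ (measure_mono (fun x hx => hx.1 : X ⊆ Ico (-(1 / 2) : ℝ) (1 / 2)))
      rw [Real.volume_Ico]; exact ENNReal.ofReal_ne_top
    have hP2 : ∫⁻ x, ‖P x‖ₑ ^ 2 ≠ ∞ := by
      simp_rw [hPe]
      rw [lintegral_indicator hXm]
      refine ne_top_of_le_ne_top (b := (N : ℝ≥0∞) ^ 2 * volume X) ?_ ?_
      · exact ENNReal.mul_ne_top (ENNReal.pow_ne_top (ENNReal.natCast_ne_top N)) hX1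
      · calc ∫⁻ x in X, (Φ x) ^ 2 ≤ ∫⁻ x in X, (N : ℝ≥0∞) ^ 2 := by
              apply setLIntegral_mono measurable_const
              intro x hx
              gcongr
              exact hx.2.2
          _ = _ := by rw [lintegral_const, Measure.restrict_apply_univ]
    have hPL : MemLp P 2 volume := memLp_two_of hPm.aestronglyMeasurable hP2
    have hcoef : ∀ m : ℤ, ∫ p : ℝ × ℝ, (starRingEnd ℂ) (Complex.exp (-(2 * Real.pi * Complex.I *
          ((m * p.1 : ℝ) : ℂ))) * F p) * g p =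
        ∫ x, (starRingEnd ℂ) (ker 1 (-(1 / 2)) m x) * P x := by
      intro m
      have hi : Integrable (fun p : ℝ × ℝ => (starRingEnd ℂ) (Complex.exp (-(2 * Real.pi * Complex.I *
          ((m * p.1 : ℝ) : ℂ))) * F p) * g p) volume := by
        have h2 : MemLp (fun p : ℝ × ℝ => (starRingEnd ℂ) (Complex.exp (-(2 * Real.pi * Complex.I *
          ((m * p.1 : ℝ) : ℂ))) * F p)) 2 volume := by
          apply MemLp.star
          apply memLp_two_of
          · exact (Measurable.mul (by fun_prop) hF).aestronglyMeasurable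
          · have h3 : ∀ p : ℝ × ℝ, ‖Complex.exp (-(2 * Real.pi * Complex.I *
                ((m * p.1 : ℝ) : ℂ))) * F p‖ₑ ^ 2 = ‖F p‖ₑ ^ 2 := by
              intro p
              rw [enorm_mul]
              have : ‖Complex.exp (-(2 * Real.pi * Complex.I * ((m * p.1 : ℝ) : ℂ)))‖ₑ = 1 := by
                rw [← ofReal_norm, Complex.norm_exp]
                simp
              rw [this, one_mul]
            simp_rw [h3]
            exact h1
        exact h2.integrable_mul (memLp_two_of hgm.aestronglyMeasurable hgf)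
      rw [Measure.volume_eq_prod] at hi ⊢
      rw [integral_prod _ hi]
      apply integral_congr_ae
      have hfin : ∀ᵐ x : ℝ, Φ x < ∞ := ae_lt_top hΦm hΦi
      filter_upwards [hfin] with x hx
      by_cases hxX : x ∈ X
      · have hw : ((-(1 / 2) : ℝ) ≤ 1 * x ∧ 1 * x < -(1 / 2) + 1) := by
          rw [one_mul]
          refine ⟨hxX.1.1, ?_⟩
          have := hxX.1.2
          linarith
        have e1 : ∀ y : ℝ, (starRingEnd ℂ) (Complex.exp (-(2 * Real.pi * Complex.I *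
            ((m * x : ℝ) : ℂ))) * F (x, y)) * g (x, y) =
            (starRingEnd ℂ) (ker 1 (-(1 / 2)) m x) * ((‖F (x, y)‖ ^ 2 : ℝ) : ℂ) := by
          intro y
          have hker : ker 1 (-(1 / 2)) m x =
              Complex.exp (-(2 * Real.pi * Complex.I * ((m * x : ℝ) : ℂ))) := by
            unfold ker
            rw [if_pos hw, Real.sqrt_one, Complex.ofReal_one, one_mul]
            congr 2
            push_cast
            ring
          rw [hker]
          simp only [hg, indicator_of_mem hxX, one_mul]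
          rw [map_mul, mul_assoc]
          have e2 : (starRingEnd ℂ) (F (x, y)) * F (x, y) = ((‖F (x, y)‖ ^ 2 : ℝ) : ℂ) := by
            rw [← Complex.normSq_eq_conj_mul_self, Complex.normSq_eq_norm_sq]
          rw [e2]
        simp only [e1]
        rw [integral_const_mul, integral_complex_ofReal]
        congr 1
        simp only [hP, indicator_of_mem hxX]
        congr 1
        rw [integral_eq_lintegral_of_nonneg_ae (Filter.Eventually.of_forall fun y => by positivity)]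
        · congr 1
          apply lintegral_congr
          intro y
          rw [ENNReal.ofReal_pow (norm_nonneg _), ofReal_norm]
        · exact ((hF.comp measurable_prodMk_left).norm.pow_const 2).aestronglyMeasurable
      · simp only [hg, hP, indicator_of_notMem hxX]
        simp
    have hB1 := hB g hgm hgf
    simp_rw [hcoef] at hB1
    rw [parseval_win one_pos (-(1 / 2)) (hPL.restrict _), hg2] at hB1
    have e3 : ∫⁻ x in Ico (-(1 / 2) / 1 : ℝ) ((-(1 / 2) + 1) / 1), ‖P x‖ₑ ^ 2 = ∫⁻ x in X, (Φ x) ^ 2 := by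
      simp_rw [hPe]
      rw [← lintegral_indicator measurableSet_Ico, ← lintegral_indicator hXm]
      apply lintegral_congr
      intro x
      by_cases hx : x ∈ X
      · rw [indicator_of_mem hx, indicator_of_mem, indicator_of_mem hx]
        have := hx.1
        constructor
        · rw [div_one]; exact this.1
        · rw [div_one]; linarith [this.2]
      · rw [indicator_of_notMem hx]
        by_cases hx2 : x ∈ Ico (-(1 / 2) / 1 : ℝ) ((-(1 / 2) + 1) / 1)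
        · rw [indicator_of_mem hx2, indicator_of_notMem hx]
        · rw [indicator_of_notMem hx2]
    rw [e3] at hB1
    have e4 : ∫⁻ x in X, ((Φ x) ^ 2 - Φ x) = 0 := by
      rw [lintegral_sub hΦm, tsub_eq_zero_iff_le]
      · exact hB1
      · exact ne_top_of_le_ne_top hΦi (setLIntegral_le_lintegral _ _)
      · refine (ae_restrict_iff' hXm).2 (Filter.Eventually.of_forall fun x hx => ?_)
        calc Φ x = Φ x * 1 := (mul_one _).symm
          _ ≤ Φ x * Φ x := by gcongr; exact hx.2.1.le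
          _ = _ := (sq _).symm
    replace e4 := (lintegral_eq_zero_iff (f := fun x => (Φ x) ^ 2 - Φ x)
      ((hΦm.pow_const 2).sub hΦm)).1 e4
    have e5 : ∀ᵐ x ∂(volume.restrict X), False := by
      have e6 : ∀ᵐ x ∂(volume.restrict X), x ∈ X := ae_restrict_mem hXm
      filter_upwards [e4, e6] with x hx hx2
      simp only [Pi.zero_apply] at hx
      rw [tsub_eq_zero_iff_le] at hx
      have hfin : Φ x ≠ ∞ := ne_top_of_le_ne_top (ENNReal.natCast_ne_top N) hx2.2.2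
      have h0 : Φ x ≠ 0 := (lt_trans zero_lt_one hx2.2.1).ne'
      have h7 : Φ x * 1 < Φ x * Φ x := (ENNReal.mul_lt_mul_iff_right h0 hfin).2 hx2.2.1
      rw [mul_one, ← sq] at h7
      exact absurd hx (not_le.2 h7)
    rw [ae_iff] at e5
    simpa using e5
  have hfin : ∀ᵐ x : ℝ, Φ x < ∞ := ae_lt_top hΦm hΦi
  have hall : ∀ᵐ x : ℝ, ∀ N : ℕ, ¬ (x ∈ Ico (-(1 / 2) : ℝ) (1 / 2) ∧ 1 < Φ x ∧ Φ x ≤ N) := by
    rw [ae_all_iff]
    intro N
    rw [ae_iff]
    simp only [not_not]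
    exact key N
  filter_upwards [hfin, hall] with x hx hx2 hx3
  by_contra hcon
  obtain ⟨N, hN⟩ := ENNReal.exists_nat_gt hx.ne
  exact hx2 N ⟨hx3, not_le.1 hcon, hN.le⟩

end slices

section msf

variable {lam : ℝ} {q : ℕ}

/-- The Fourier side of the system generated by a function `F`. -/
noncomputable def GF (lam : ℝ) (q : ℕ) (F : ℝ × ℝ → ℂ) (p : ℤ × (ℤ × ℤ)) (x : ℝ × ℝ) : ℂ :=
  ((Real.sqrt (lam ^ (-p.1) * (q : ℝ) ^ p.1) : ℝ) : ℂ) *
    Complex.exp (-(2 * Real.pi * Complex.I *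
      ((p.2.1 * (lam ^ (-p.1) * x.1) + p.2.2 * ((q : ℝ) ^ p.1 * x.2) : ℝ) : ℂ))) *
    F (lam ^ (-p.1) * x.1, (q : ℝ) ^ p.1 * x.2)

lemma hilbert_parseval {ι : Type} (b : HilbertBasis ι ℂ L2E) (f : L2E) :
    ∑' i, ‖inner ℂ (b i) f‖ₑ ^ 2 = ‖f‖ₑ ^ 2 := by
  have h := b.hasSum_inner_mul_inner f f
  have h2 : HasSum (fun i => ‖inner ℂ (b i) f‖ ^ 2) (‖f‖ ^ 2) := by
    rw [← Complex.hasSum_ofReal]
    have e1 : (fun i => ((‖inner ℂ (b i) f‖ ^ 2 : ℝ) : ℂ)) =
        fun i => inner ℂ f (b i) * inner ℂ (b i) f := by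
      funext i
      rw [← inner_conj_symm f (b i), Complex.conj_mul', Complex.ofReal_pow]
    have e2 : ((‖f‖ ^ 2 : ℝ) : ℂ) = inner ℂ f f := by
      rw [inner_self_eq_norm_sq_to_K]
      simp
    rw [e1, e2]
    exact h
  have h3 : ∀ i, ‖inner ℂ (b i) f‖ₑ ^ 2 = ENNReal.ofReal (‖inner ℂ (b i) f‖ ^ 2) := by
    intro i
    rw [ENNReal.ofReal_pow (norm_nonneg _), ofReal_norm]
  simp_rw [h3]
  rw [← ENNReal.ofReal_tsum_of_nonneg (fun i => by positivity) h2.summable, h2.tsum_eq,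
    ENNReal.ofReal_pow (norm_nonneg _), ofReal_norm]

lemma parseval_plane (hl : 1 < lam) (hq : 2 ≤ q) {ψ : L2E}
    (b : HilbertBasis (ℤ × intLattice 2) ℂ L2E)
    (hb : ∀ (j : ℤ) (k : intLattice 2), (b (j, k) : E 2 → ℂ) =ᵐ[volume] wav (AA hl hq) ψ j k)
    {F : ℝ × ℝ → ℂ} (hF : (𝓕 ψ : L2E) =ᵐ[volume] fun ξ : E 2 => F (ce ξ))
    {g : ℝ × ℝ → ℂ} (hg : Measurable g) (hg2 : ∫⁻ p, ‖g p‖ₑ ^ 2 ≠ ∞) :
    ∑' p : ℤ × (ℤ × ℤ), ‖∫ x, (starRingEnd ℂ) (GF lam q F p x) * g x‖ₑ ^ 2 =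
      ∫⁻ x, ‖g x‖ₑ ^ 2 := by
  have hgL : MemLp g 2 volume := memLp_two_of hg.aestronglyMeasurable hg2
  set f : L2E := (memLp_comp_ce hgL).toLp (fun x : E 2 => g (ce x)) with hf
  have hfae : (f : E 2 → ℂ) =ᵐ[volume] fun x => g (ce x) := (memLp_comp_ce hgL).coeFn_toLp
  have h1 := hilbert_parseval b (𝓕⁻ f)
  have h2 : ‖(𝓕⁻ f : L2E)‖ₑ ^ 2 = ∫⁻ x, ‖g x‖ₑ ^ 2 := by
    have h3 : ‖(𝓕⁻ f : L2E)‖ = ‖f‖ := (Lp.fourierTransformₗᵢ (E 2) ℂ).symm.norm_map f
    rw [← ofReal_norm, h3, ofReal_norm, enorm_sq, ← lintegral_ce]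
    apply lintegral_congr_ae
    filter_upwards [hfae] with x hx
    rw [hx]
  rw [← h2, ← h1, ← ((Equiv.refl ℤ).prodCongr latEquiv).tsum_eq]
  congr 1
  funext p
  obtain ⟨j, m, n⟩ := p
  congr 2
  have h4 : inner ℂ (b (((Equiv.refl ℤ).prodCongr latEquiv) (j, (m, n)))) (𝓕⁻ f) =
      inner ℂ (𝓕 (b (((Equiv.refl ℤ).prodCongr latEquiv) (j, (m, n)))) : L2E) f := by
    rw [← Lp.inner_fourier_eq]
    congr 1
    exact FourierTransform.fourier_fourierInv_eq f
  rw [h4, L2.inner_def]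
  have h5 := basis_ae hl hq hF (b (j, latEquiv (m, n))) j m n (hb j (latEquiv (m, n)))
  have h6 : ∀ᵐ x : E 2, inner ℂ ((𝓕 (b (((Equiv.refl ℤ).prodCongr latEquiv) (j, (m, n)))) : L2E) x)
      (f x) = (fun y => (starRingEnd ℂ) (GF lam q F (j, (m, n)) y) * g y) (ce x) := by
    filter_upwards [h5, hfae] with x hx hx2
    have h7 : (𝓕 (b (((Equiv.refl ℤ).prodCongr latEquiv) (j, (m, n)))) : L2E) x =
        GF lam q F (j, (m, n)) (ce x) := hx
    rw [h7, hx2]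
    simp [mul_comm]
  rw [integral_congr_ae h6]
  exact (mp_ce.integral_comp' (g := fun y => (starRingEnd ℂ) (GF lam q F (j, (m, n)) y) * g y)).symm

lemma ae_plane {a b : ℝ} (ha : a ≠ 0) (hb : b ≠ 0) {p : ℝ × ℝ → Prop} (hp : ∀ᵐ x, p x) :
    ∀ᵐ x : ℝ × ℝ, p (a * x.1, b * x.2) := by
  have h1 : ∀ᵐ x : E 2, p (ce x) := mp_ce.quasiMeasurePreserving.ae hp
  have h2 : ∀ᵐ x : E 2, p (ce (dg a b ha hb x - 0)) := (qmp_aff (dg a b ha hb) 0).ae h1
  have h3 : MeasurePreserving ce.symm (volume : Measure (ℝ × ℝ)) volume := mp_ce.symm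
  have h4 := h3.quasiMeasurePreserving.ae h2
  filter_upwards [h4] with x hx
  rw [sub_zero, ce_apply, dg_zero, dg_one] at hx
  have h5 : ce (ce.symm x) = x := ce.apply_symm_apply x
  rw [ce_apply] at h5
  have h6 : (ce.symm x) 0 = x.1 := congrArg Prod.fst h5
  have h7 : (ce.symm x) 1 = x.2 := congrArg Prod.snd h5
  rwa [h6, h7] at hx

/-- The dilates of the support of the Fourier transform cover the plane. -/
lemma cover_plane (hl : 1 < lam) (hq : 2 ≤ q) {ψ : L2E}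
    (b : HilbertBasis (ℤ × intLattice 2) ℂ L2E)
    (hb : ∀ (j : ℤ) (k : intLattice 2), (b (j, k) : E 2 → ℂ) =ᵐ[volume] wav (AA hl hq) ψ j k)
    {F : ℝ × ℝ → ℂ} (hFm : Measurable F) (hF : (𝓕 ψ : L2E) =ᵐ[volume] fun ξ : E 2 => F (ce ξ)) :
    ∀ᵐ x : ℝ × ℝ, ∃ j : ℤ, F (lam ^ (-j) * x.1, (q : ℝ) ^ j * x.2) ≠ 0 := by
  rw [ae_iff]
  set Z : Set (ℝ × ℝ) := {x | ¬ ∃ j : ℤ, F (lam ^ (-j) * x.1, (q : ℝ) ^ j * x.2) ≠ 0} with hZ
  have hZm : MeasurableSet Z := by
    have h1 : Z = ⋂ j : ℤ, (fun x : ℝ × ℝ => F (lam ^ (-j) * x.1, (q : ℝ) ^ j * x.2)) ⁻¹' {0} := by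
      ext x
      simp [hZ]
    rw [h1]
    apply MeasurableSet.iInter
    intro j
    exact (hFm.comp (by fun_prop : Measurable (fun p : ℝ × ℝ =>
      (lam ^ (-j) * p.1, (q : ℝ) ^ j * p.2)))) (measurableSet_singleton 0)
  by_contra hpos
  obtain ⟨Y, hYm, hYZ, hY0, hYf⟩ : ∃ Y : Set (ℝ × ℝ), MeasurableSet Y ∧ Y ⊆ Z ∧
      volume Y ≠ 0 ∧ volume Y ≠ ∞ := by
    obtain ⟨Y, h1, h2, h3, h4⟩ := Measure.exists_subset_measure_lt_top hZm (pos_iff_ne_zero.2 hpos)
    exact ⟨Y, h1, h2, h3.ne', h4.ne⟩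
  set g : ℝ × ℝ → ℂ := Y.indicator (fun _ => 1) with hg
  have hgm : Measurable g := measurable_const.indicator hYm
  have hg2 : ∫⁻ p, ‖g p‖ₑ ^ 2 = volume Y := by
    have h1 : ∀ p, ‖g p‖ₑ ^ 2 = Y.indicator (fun _ => (1 : ℝ≥0∞)) p := by
      intro p
      by_cases hp : p ∈ Y
      · simp [hg, indicator_of_mem hp]
      · simp [hg, indicator_of_notMem hp]
    simp_rw [h1]
    rw [lintegral_indicator_const hYm, one_mul]
  have h1 := parseval_plane hl hq b hb hF hgm (by rw [hg2]; exact hYf)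
  rw [hg2] at h1
  apply hY0
  rw [← h1, ENNReal.tsum_eq_zero]
  intro p
  have h2 : ∀ x, (starRingEnd ℂ) (GF lam q F p x) * g x = 0 := by
    intro x
    by_cases hx : x ∈ Y
    · have h3 : F (lam ^ (-p.1) * x.1, (q : ℝ) ^ p.1 * x.2) = 0 := by
        have h4 := hYZ hx
        simp only [hZ, mem_ofPred_eq, not_exists, not_not] at h4
        exact h4 p.1
      unfold GF
      rw [h3]
      simp
    · simp [hg, indicator_of_notMem hx]
  simp [h2]

/-- No minimally supported frequency wavelets. -/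
theorem no_msf (hl : 1 < lam) (hq : 2 ≤ q) {ψ : L2E}
    (hON : IsOrthonormalWavelet (AA hl hq) (intLattice 2) ψ)
    {W : Set (E 2)} (hW : ∀ᵐ ξ : E 2, ‖(𝓕 ψ : L2E) ξ‖ = W.indicator (fun _ => 1) ξ) : False := by
  have h0 : 0 < lam := by linarith
  have hq0 : (0 : ℝ) < q := by exact_mod_cast (by omega : 0 < q)
  have hq1 : (1 : ℝ) < q := by exact_mod_cast (by omega : 1 < q)
  obtain ⟨b, hb⟩ := hON
  obtain ⟨u, hu, hu2⟩ := Lp.aestronglyMeasurable (𝓕 ψ : L2E)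
  set F : ℝ × ℝ → ℂ := fun y => u (ce.symm y) with hFdef
  have hFm : Measurable F := hu.measurable.comp ce.symm.measurable
  have hF : (𝓕 ψ : L2E) =ᵐ[volume] fun ξ : E 2 => F (ce ξ) := by
    filter_upwards [hu2] with x hx
    rw [hx, hFdef]
    simp
  have hFi : ∫⁻ p, ‖F p‖ₑ ^ 2 ≠ ∞ := by
    have h1 : ∫⁻ p, ‖F p‖ₑ ^ 2 = ‖(𝓕 ψ : L2E)‖ₑ ^ 2 := by
      rw [enorm_sq, ← lintegral_ce]
      apply lintegral_congr_ae
      filter_upwards [hF] with x hx
      rw [hx]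
    rw [h1]
    simp
  -- the modulus takes the values zero and one
  have hval : ∀ᵐ p : ℝ × ℝ, F p ≠ 0 → ‖F p‖ₑ ^ 2 = 1 := by
    have h1 : ∀ᵐ ξ : E 2, F (ce ξ) ≠ 0 → ‖F (ce ξ)‖ₑ ^ 2 = 1 := by
      filter_upwards [hW, hF] with ξ h1 h2 h3
      rw [h2] at h1
      by_cases hξ : ξ ∈ W
      · rw [indicator_of_mem hξ] at h1
        rw [← ofReal_norm, h1]
        simp
      · rw [indicator_of_notMem hξ] at h1
        exact absurd (norm_eq_zero.1 h1) h3
    have h3 : MeasurePreserving ce.symm (volume : Measure (ℝ × ℝ)) volume := mp_ce.symm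
    have h4 := h3.quasiMeasurePreserving.ae h1
    filter_upwards [h4] with x hx
    simpa using hx
  have hval2 : ∀ᵐ p : ℝ × ℝ, ∀ j : ℤ, F (lam ^ (-j) * p.1, (q : ℝ) ^ j * p.2) ≠ 0 →
      ‖F (lam ^ (-j) * p.1, (q : ℝ) ^ j * p.2)‖ₑ ^ 2 = 1 := by
    rw [ae_all_iff]
    intro j
    exact ae_plane (zpow_pos h0 _).ne' (zpow_pos hq0 _).ne' hval
  have hcov : ∀ᵐ p : ℝ × ℝ, 1 ≤ ∑' j : ℤ, ‖F (lam ^ (-j) * p.1, (q : ℝ) ^ j * p.2)‖ₑ ^ 2 := by
    filter_upwards [cover_plane hl hq b hb hFm hF, hval2] with p hp hp2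
    obtain ⟨j, hj⟩ := hp
    rw [← hp2 j hj]
    exact ENNReal.le_tsum j
  -- Bessel inequalities
  have hbes : ∀ (κ : ℤ → ℤ × (ℤ × ℤ)), Function.Injective κ → ∀ g : ℝ × ℝ → ℂ, Measurable g →
      ∫⁻ p, ‖g p‖ₑ ^ 2 ≠ ∞ →
      ∑' m : ℤ, ‖∫ x, (starRingEnd ℂ) (GF lam q F (κ m) x) * g x‖ₑ ^ 2 ≤ ∫⁻ x, ‖g x‖ₑ ^ 2 := by
    intro κ hκ g hg hg2
    rw [← parseval_plane hl hq b hb hF hg hg2]
    exact ENNReal.tsum_comp_le_tsum_of_injective hκ
      (fun p => ‖∫ x, (starRingEnd ℂ) (GF lam q F p x) * g x‖ₑ ^ 2)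
  rcases le_total (q : ℝ) lam with hle | hle
  · refine not_cover hl hq1 hle hFm (slice_le hFm hFi ?_) hFi hcov
    intro g hg hg2
    have h1 := hbes (fun m => (0, (m, 0))) (fun m m' h => by simpa using h) g hg hg2
    refine le_trans (le_of_eq ?_) h1
    congr 1
    funext m
    congr 3
    funext x
    congr 2
    unfold GF
    simp
  · set F₂ : ℝ × ℝ → ℂ := fun p => F p.swap with hF₂
    have hF₂m : Measurable F₂ := hFm.comp measurable_swap
    have hsw : MeasurePreserving Prod.swap (volume : Measure (ℝ × ℝ)) volume :=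
      Measure.measurePreserving_swap
    have hsl : ∀ g : ℝ × ℝ → ℝ≥0∞, ∫⁻ p : ℝ × ℝ, g p.swap = ∫⁻ p, g p := fun g =>
      hsw.lintegral_comp_emb MeasurableEquiv.prodComm.measurableEmbedding g
    have hsi : ∀ g : ℝ × ℝ → ℂ, ∫ p : ℝ × ℝ, g p.swap = ∫ p, g p := fun g =>
      hsw.integral_comp MeasurableEquiv.prodComm.measurableEmbedding g
    have hF₂i : ∫⁻ p, ‖F₂ p‖ₑ ^ 2 ≠ ∞ := by
      rw [hsl (fun p => ‖F p‖ₑ ^ 2)]
      exact hFi
    refine not_cover hq1 hl hle hF₂m (slice_le hF₂m hF₂i ?_) hF₂i ?_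
    · intro g hg hg2
      have hg' : Measurable (fun p : ℝ × ℝ => g p.swap) := hg.comp measurable_swap
      have h1 := hbes (fun m => (0, (0, m))) (fun m m' h => by simpa using h)
        (fun p => g p.swap) hg' (by rw [hsl (fun p => ‖g p‖ₑ ^ 2)]; exact hg2)
      rw [hsl (fun p => ‖g p‖ₑ ^ 2)] at h1
      refine le_trans (le_of_eq ?_) h1
      congr 1
      funext m
      congr 2
      rw [← hsi]
      congr 1
      funext x
      congr 2
      unfold GF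
      simp [hF₂]
    · have h2 := hsw.quasiMeasurePreserving.ae hcov
      filter_upwards [h2] with p hp
      refine le_trans hp (le_of_eq ?_)
      rw [← (Equiv.neg ℤ).tsum_eq]
      congr 1
      funext j
      simp only [hF₂, Equiv.neg_apply, neg_neg, Prod.fst_swap, Prod.snd_swap, Prod.swap_prod_mk]

end msf

/-- Orthonormal wavelets without MSF wavelets. -/
theorem main_msf {lam : ℝ} {q : ℕ} (hl : 1 < lam) (hq : 2 ≤ q) :
    ∃ A : E 2 ≃L[ℝ] E 2, IsDiag A lam (1 / q) ∧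
      HasOrthonormalWavelet A (intLattice 2) ∧ ¬ HasMSFWavelet A (intLattice 2) := by
  refine ⟨AA hl hq, fun x => ⟨rfl, rfl⟩, ⟨psi hl hq, isOrthonormalWavelet_psi hl hq⟩, ?_⟩
  rintro ⟨ψ, h1, W, _, h2⟩
  exact no_msf hl hq h1 h2

end Pool.Agent.Helper537.Calderon
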